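import Pool.Agent.PB.M12.DetB
import Pool.Agent.PB.T.Defs
import Pool.Agent.PB.P.Conv

/-!
# PROJECT PB, module M12-PROBB (Section 12.2): the second case

PLAN.
* `kap_shift`: translation, copy of `T10.trans_all` in PB/T/Main.lean (`Pr_act (trI x)`,
  `mem_opn_act (trI_aut x)`, and that `RchL` is transported by an equivalence: `T10.RchL_equiv` in
  the same file; copy it here as a private lemma, do not import T/Main).
* `thn_shift`: the same for `RchT (opn p ω) v (bx n v)ᶜ` (`Rch_act (trI_aut v)`, `bx` translates).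
* `wit_le`: for fixed `a b c e v n`. `T10.dOcc_of_sets` with `k = 4` and
  `f = ![fun S => RchL S r a b, fun S => RchL S r b c, fun S => RchL S r c e,
    fun S => RchT S v (bx n v)ᶜ]` (all monotone: `RchL.mono`, `Rch.mono`) shows
  `{ω | Wit (opn p ω) r a b c e v (bx n v)ᶜ} ⊆ dOcc (fun j => {ω | f j (opn p ω)})`;
  `bk_Pr` (measurability `MES.rchL`, `MES.rchT`; up-events `T10.isUp_opn`), `Fin.prod_univ_four`,
  `kap_shift`, `thn_shift`. `Wit` is monotone in `O`: `(Del.ofSet U).rem (opn p ω) ⊆ opn p ω`.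
* `tri_sum`: `∑' v, ∑' w, f (v-y) * f (w-v) * f (y'-w) = cpow f 3 (y'-y)` (`cpow_three` of
  PB/P/Conv.lean: `conv f (conv f f) x = ∑' a, f a * ∑' b, f b * f (x - a - b)`; substitute
  `a = v - y`, `b = w - v` with `Equiv.subRight` / `Equiv.tsum_eq`).
* `caseB_le`: by `attach_far` (`O = (Del.ofSet U).rem (opn p ω)`) the event is contained in
  `⋃ v, ⋃ w, ({Wit y v w y' v} ∪ {Wit y w v y' v})`: `measure_iUnion_le` twice,
  `measure_union_le`, `wit_le`, `tri_sum` (in the second sum the order of `v`, `w` is exchanged: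
  `ENNReal.tsum_comm`).
-/

set_option autoImplicit false
open MeasureTheory Filter Topology
open scoped ENNReal BigOperators

namespace Pool.Agent.PB.M12

variable {d : ℕ}

private theorem RchL_mono {W : Type*} {O O' : Set (Sym2 W)} (h : O ⊆ O') {n : ℕ} {x y : W}
    (hxy : RchL O n x y) : RchL O' n x y := by
  induction n generalizing y with
  | zero => exact hxy
  | succ n ih =>
    rcases hxy with h1 | ⟨z, hz, hzy⟩
    · exact Or.inl (ih h1)
    · exact Or.inr ⟨z, ih hz, h hzy⟩

private theorem RchL_map {W W' : Type*} {O : Set (Sym2 W)} {O' : Set (Sym2 W')} (f : W → W')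
    (h : ∀ a b, s(a, b) ∈ O → s(f a, f b) ∈ O') {n : ℕ} {x y : W} (hxy : RchL O n x y) :
    RchL O' n (f x) (f y) := by
  induction n generalizing y with
  | zero => exact congrArg f hxy
  | succ n ih =>
    rcases hxy with h1 | ⟨z, hz, hzy⟩
    · exact Or.inl (ih h1)
    · exact Or.inr ⟨f z, ih hz, h _ _ hzy⟩

private theorem RchL_equiv {W W' : Type*} {O : Set (Sym2 W)} {O' : Set (Sym2 W')} (f : W ≃ W')
    (h : ∀ a b, s(a, b) ∈ O ↔ s(f a, f b) ∈ O') (n : ℕ) (x y : W) :
    RchL O n x y ↔ RchL O' n (f x) (f y) := by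
  constructor
  · exact RchL_map f fun a b => (h a b).1
  · intro h1
    have := RchL_map (O' := O) f.symm (fun a b hab => by rw [h]; simpa using hab) h1
    simpa using this

theorem kap_shift (p : ℝ) (r : ℕ) (x y : V d) :
    Pr d {ω : Om d | RchL (opn p ω) r x y} = PB.kap p r (y - x) := by
  unfold PB.kap
  rw [← Pr_act (trI x) {ω | RchL (opn p ω) r 0 (y - x)}]
  congr 1
  ext ω
  simp only [Set.mem_ofPred_eq]
  rw [RchL_equiv (trI x) (fun a b => mem_opn_act (trI_aut x) p ω a b)]
  simp [trI_apply]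

theorem thn_shift (p : ℝ) (n : ℕ) (v : V d) :
    Pr d {ω : Om d | RchT (opn p ω) v (bx n v)ᶜ} = thn d p n := by
  unfold thn
  rw [← Pr_act (trI v) {ω | RchT (opn p ω) 0 (bx n (0 : V d))ᶜ}]
  congr 1
  ext ω
  simp only [Set.mem_ofPred_eq, RchT, Rch_act (trI_aut v)]
  constructor
  · rintro ⟨t, ht, h⟩
    refine ⟨t - v, ?_, by simpa [trI_apply] using h⟩
    intro h2
    apply ht
    intro i
    have := h2 i
    simpa using this
  · rintro ⟨t, ht, h⟩
    refine ⟨t + v, ?_, by simpa [trI_apply] using h⟩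
    intro h2
    apply ht
    intro i
    have := h2 i
    simpa using this

theorem wit_le (p : ℝ) (r n : ℕ) (a b c e v : V d) :
    Pr d {ω : Om d | Wit (opn p ω) r a b c e v (bx n v)ᶜ} ≤
      PB.kap p r (b - a) * PB.kap p r (c - b) * PB.kap p r (e - c) * thn d p n := by
  set f : Fin 4 → Set (Sym2 (V d)) → Prop := ![fun S => RchL S r a b, fun S => RchL S r b c,
    fun S => RchL S r c e, fun S => RchT S v (bx n v)ᶜ] with hf
  have hmono : ∀ j O O', O ⊆ O' → f j O → f j O' := by
    intro j O O' h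
    fin_cases j
    · exact fun h1 => RchL_mono h h1
    · exact fun h1 => RchL_mono h h1
    · exact fun h1 => RchL_mono h h1
    · rintro ⟨t, ht, h1⟩
      exact ⟨t, ht, h1.mono h⟩
  have hsub : {ω : Om d | Wit (opn p ω) r a b c e v (bx n v)ᶜ} ⊆
      dOcc (fun j => {ω : Om d | f j (opn p ω)}) := by
    rintro ω ⟨S, h1, h2, h3, h4, h5, h6, h7⟩
    refine T10.dOcc_of_sets hmono S h1 h2 h3 ?_
    intro j
    fin_cases j
    · exact h4
    · exact h5
    · exact h6
    · exact h7
  have hmeas : ∀ j, MeasurableSet {ω : Om d | f j (opn p ω)} := by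
    intro j
    fin_cases j
    · exact (opn_MES p).rchL r a b
    · exact (opn_MES p).rchL r b c
    · exact (opn_MES p).rchL r c e
    · exact (opn_MES p).rchT (MVS.const _) v
  refine (measure_mono hsub).trans ((bk_Pr hmeas fun j => T10.isUp_opn (hmono j)).trans
    (le_of_eq ?_))
  rw [Fin.prod_univ_four, ← kap_shift p r a b, ← kap_shift p r b c, ← kap_shift p r c e,
    ← thn_shift p n v]
  rfl

theorem tri_sum (f : V d → ℝ≥0∞) (y y' : V d) :
    ∑' v : V d, ∑' w : V d, f (v - y) * f (w - v) * f (y' - w) = cpow f 3 (y' - y) := by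
  rw [cpow_three]
  unfold conv
  rw [← (Equiv.addRight y).tsum_eq]
  refine tsum_congr fun v => ?_
  rw [← ENNReal.tsum_mul_left, ← (Equiv.addRight (v + y)).tsum_eq]
  refine tsum_congr fun w => ?_
  show f (v + y - y) * f (w + (v + y) - (v + y)) * f (y' - (w + (v + y))) = _
  rw [add_sub_cancel_right, add_sub_cancel_right,
    show y' - (w + (v + y)) = y' - y - v - w by abel, mul_assoc]

private theorem Wit_mono {W : Type*} {O O' : Set (Sym2 W)} (h : O ⊆ O') {r : ℕ} {a b c e v : W}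
    {T : Set W} (hW : Wit O r a b c e v T) : Wit O' r a b c e v T := by
  obtain ⟨S, h1, h2⟩ := hW
  exact ⟨S, fun j => (h1 j).trans h, h2⟩

theorem caseB_le (p : ℝ) (U : Set (V d)) (r n : ℕ) (y y' : V d) :
    Pr d {ω : Om d | CaseB ((Del.ofSet U).rem (opn p ω)) r y y' ∧
      (Cl ((Del.ofSet U).rem (opn p ω)) y).Infinite} ≤
      2 * (cpow (PB.kap p r) 3 (y' - y) * thn d p n) := by
  have hsub : {ω : Om d | CaseB ((Del.ofSet U).rem (opn p ω)) r y y' ∧
      (Cl ((Del.ofSet U).rem (opn p ω)) y).Infinite} ⊆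
      ⋃ v : V d, ⋃ w : V d, ({ω : Om d | Wit (opn p ω) r y v w y' v (bx n v)ᶜ} ∪
        {ω : Om d | Wit (opn p ω) r y w v y' v (bx n v)ᶜ}) := by
    rintro ω ⟨h1, h2⟩
    obtain ⟨v, w, h3⟩ := attach_far ((Del.rem_subset _ _).trans (opn_subset p ω)) h1 h2 n
    refine Set.mem_iUnion.2 ⟨v, Set.mem_iUnion.2 ⟨w, ?_⟩⟩
    rcases h3 with h3 | h3
    · exact Or.inl (Wit_mono (Del.rem_subset _ _) h3)
    · exact Or.inr (Wit_mono (Del.rem_subset _ _) h3)
  refine (measure_mono hsub).trans ?_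
  refine ((measure_iUnion_le _).trans (ENNReal.tsum_le_tsum fun v => (measure_iUnion_le _).trans
    (ENNReal.tsum_le_tsum fun w => measure_union_le _ _))).trans ?_
  refine (ENNReal.tsum_le_tsum fun v => ENNReal.tsum_le_tsum fun w =>
    add_le_add (wit_le p r n y v w y' v) (wit_le p r n y w v y' v)).trans (le_of_eq ?_)
  have h1 : ∑' v : V d, ∑' w : V d, PB.kap p r (v - y) * PB.kap p r (w - v) * PB.kap p r (y' - w) =
      cpow (PB.kap p r) 3 (y' - y) := tri_sum _ _ _
  have h2 : ∑' v : V d, ∑' w : V d, PB.kap p r (w - y) * PB.kap p r (v - w) * PB.kap p r (y' - v) =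
      cpow (PB.kap p r) 3 (y' - y) := by
    rw [ENNReal.tsum_comm]
    exact tri_sum _ _ _
  have h3 : ∀ F : V d → V d → ℝ≥0∞, ∑' v, ∑' w, F v w * thn d p n =
      (∑' v, ∑' w, F v w) * thn d p n := by
    intro F
    simp only [ENNReal.tsum_mul_right]
  simp only [ENNReal.tsum_add]
  rw [h3 (fun v w => PB.kap p r (v - y) * PB.kap p r (w - v) * PB.kap p r (y' - w)),
    h3 (fun v w => PB.kap p r (w - y) * PB.kap p r (v - w) * PB.kap p r (y' - v)), h1, h2]
  ring

end Pool.Agent.PB.M12
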