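import Pool.Agent.PB.M12.Defs

/-!
# PROJECT PB, module M12-LIM (Sections 12.1, 12.2): limits over boxes

PLAN. For any `O`: `(Cl O y).Infinite ↔ ∀ n : ℕ, ∃ t ∉ bx n 0, Rch O y t` (boxes are finite:
`bx_fin`; a finite set is contained in some box). Both statements are continuity from above of the
measure: the events `{RchT (O ω) y (bx n 0)ᶜ}` are decreasing in `n` (`S3.bx_mono`), measurable
(`MES.rchT`, `MVS.const`, `opn_MES`, `MES.rem`), their intersection is `{(Cl (O ω) y).Infinite}`: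
`tendsto_measure_iInter_atTop` (names may differ), then `ENNReal.tendsto_toReal`.
For `thU_tendsto`: `ClA (Del.ofSet U) O y = Cl ((Del.ofSet U).rem O) y` as `y ∉ U`.
For `thn_tendsto`: `theta d p = Pr {(Cl (opn p ω) 0).Infinite}` by definition.
`thU_mono_p`: `S3.RU_mono`, `opn_mono`.
-/

set_option autoImplicit false
open MeasureTheory Filter Topology
open scoped ENNReal BigOperators

namespace Pool.Agent.PB.M12

variable {d : ℕ}

theorem cl_inf_iff (O : Set (Sym2 (V d))) (y : V d) :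
    (Cl O y).Infinite ↔ ∀ n : ℕ, RchT O y (bx n (0 : V d))ᶜ := by
  constructor
  · intro h n
    by_contra hn
    apply h
    refine (bx_fin n (0 : V d)).subset fun t ht => ?_
    by_contra htn
    exact hn ⟨t, htn, ht⟩
  · intro h hfin
    obtain ⟨t, ht, htr⟩ := h (∑ x ∈ hfin.toFinset, ∑ i, (x i).natAbs)
    apply ht
    intro i
    rw [Pi.zero_apply, sub_zero]
    have h1 : (t i).natAbs ≤ ∑ i, (t i).natAbs :=
      Finset.single_le_sum (f := fun i => (t i).natAbs) (fun _ _ => Nat.zero_le _)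
        (Finset.mem_univ i)
    have h2 : ∑ i, (t i).natAbs ≤ ∑ x ∈ hfin.toFinset, ∑ i, (x i).natAbs :=
      Finset.single_le_sum (f := fun x : V d => ∑ i, (x i).natAbs) (fun _ _ => Nat.zero_le _)
        (hfin.mem_toFinset.2 htr)
    rw [Int.abs_eq_natAbs]
    exact_mod_cast h1.trans h2

theorem ClA_ofSet {W : Type*} {U : Set W} {O : Set (Sym2 W)} {y : W} (hy : y ∉ U) :
    ClA (Del.ofSet U) O y = Cl ((Del.ofSet U).rem O) y := by
  ext x
  rw [mem_ClA, mem_Cl]
  exact ⟨fun h => h.2, fun h => ⟨hy, h⟩⟩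

private theorem tl_tendsto {O : Om d → Set (Sym2 (V d))} (hO : MES O) (y : V d) :
    Tendsto (fun n : ℕ => (Pr d {ω : Om d | RchT (O ω) y (bx n (0 : V d))ᶜ}).toReal) atTop
      (𝓝 (Pr d {ω : Om d | (Cl (O ω) y).Infinite}).toReal) := by
  have h1 : {ω : Om d | (Cl (O ω) y).Infinite} =
      ⋂ n : ℕ, {ω : Om d | RchT (O ω) y (bx n (0 : V d))ᶜ} := by
    ext ω
    rw [Set.mem_iInter]
    exact cl_inf_iff (O ω) y
  rw [h1]
  refine (ENNReal.tendsto_toReal (measure_ne_top _ _)).comp ?_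
  refine tendsto_measure_iInter_atTop (μ := Pr d)
    (s := fun n : ℕ => {ω : Om d | RchT (O ω) y (bx n (0 : V d))ᶜ}) ?_ ?_ ⟨0, measure_ne_top _ _⟩
  · intro n
    exact (hO.rchT (MVS.const _) y).nullMeasurableSet
  · rintro m n hmn ω ⟨t, ht, htr⟩
    exact ⟨t, fun h => ht (S3.bx_mono hmn h), htr⟩

theorem thU_tendsto (p : ℝ) (U : Set (V d)) {y : V d} (hy : y ∉ U) :
    Tendsto (fun n : ℕ => (S3.thU p U n y).toReal) atTop
      (𝓝 (thA p (Del.ofSet U) y).toReal) := by
  have h1 := tl_tendsto ((opn_MES p).rem (Del.ofSet U)) y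
  have h2 : thA p (Del.ofSet U) y =
      Pr d {ω : Om d | (Cl ((Del.ofSet U).rem (opn p ω)) y).Infinite} := by
    unfold thA
    congr 1
    ext ω
    show (ClA (Del.ofSet U) (opn p ω) y).Infinite ↔ _
    rw [ClA_ofSet hy]
    rfl
  rw [h2]
  exact h1

theorem thn_tendsto (p : ℝ) : Tendsto (fun n : ℕ => (thn d p n).toReal) atTop (𝓝 (thr d p)) := by
  exact tl_tendsto (opn_MES p) (0 : V d)

theorem thU_mono_p {p q : ℝ} (h : p ≤ q) (U : Set (V d)) (n : ℕ) (y : V d) :
    (S3.thU p U n y).toReal ≤ (S3.thU q U n y).toReal := by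
  refine ENNReal.toReal_mono (measure_ne_top _ _) (measure_mono fun ω hω => ?_)
  exact S3.RU_mono (opn_mono h ω) hω

end Pool.Agent.PB.M12
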