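import Pool.Agent.PB.M12.ProbA
import Pool.Agent.PB.M12.ProbB
import Pool.Agent.PB.M12.ThLim

/-!
# PROJECT PB, Section 12.2: `h12_2` (helper58)
-/

set_option autoImplicit false
open MeasureTheory Filter Topology
open scoped ENNReal BigOperators

namespace Pool.Agent.PB.M12

variable {d : ℕ}

theorem pow_bound {c ε : ℝ} (hc : 0 < c) (h0 : 0 < ε) (h1 : ε ≤ 1) :
    ((c + ε) / c) ^ ⌈1 / ε⌉₊ ≤ Real.exp (2 / c) := by
  have h2 : (c + ε) / c ≤ Real.exp (ε / c) := by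
    have := Real.add_one_le_exp (ε / c)
    have h3 : (c + ε) / c = ε / c + 1 := by field_simp; ring
    rw [h3]; exact this
  have h4 : (⌈1 / ε⌉₊ : ℝ) < 1 / ε + 1 := Nat.ceil_lt_add_one (by positivity)
  calc ((c + ε) / c) ^ ⌈1 / ε⌉₊ ≤ (Real.exp (ε / c)) ^ ⌈1 / ε⌉₊ :=
        pow_le_pow_left₀ (by positivity) h2 _
    _ = Real.exp (⌈1 / ε⌉₊ * (ε / c)) := (Real.exp_nat_mul _ _).symm
    _ ≤ Real.exp (2 / c) := by
        rw [Real.exp_le_exp]
        calc (⌈1 / ε⌉₊ : ℝ) * (ε / c) ≤ (1 / ε + 1) * (ε / c) := by gcongr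
          _ = (1 + ε) / c := by field_simp
          _ ≤ 2 / c := by gcongr; linarith

theorem ceil_pos {ε : ℝ} (h0 : 0 < ε) : 1 ≤ ⌈1 / ε⌉₊ := Nat.one_le_ceil_iff.2 (by positivity)

theorem inv_ceil {ε : ℝ} (h0 : 0 < ε) : 1 / (⌈1 / ε⌉₊ : ℝ) ≤ ε := by
  have h : 1 / ε ≤ (⌈1 / ε⌉₊ : ℝ) := Nat.le_ceil _
  rw [div_le_iff₀ (by exact_mod_cast ceil_pos h0)]
  rw [div_le_iff₀ h0] at h
  linarith

theorem cpow3_smul (c : ℝ≥0∞) (f : V d → ℝ≥0∞) (x : V d) :
    cpow (fun z => c * f z) 3 x = c ^ 3 * cpow f 3 x := by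
  rw [cpow_three, cpow_three]
  simp only [conv, ← ENNReal.tsum_mul_left]
  refine tsum_congr fun a => tsum_congr fun b => ?_
  ring

theorem T3_lt (hC : Crit d) (x : V d) : cpow (tau (d := d) (pc d)) 3 x < ⊤ := by
  have h0 : 1 ≤ tau (d := d) (pc d) 0 := by
    unfold tau
    have : {ω : Om d | Rch (opn (pc d) ω) 0 0} = Set.univ := by
      ext ω; simp [Rch.refl]
    rw [this, measure_univ]
  refine lt_of_le_of_lt ?_ hC.B8
  exact (cpow_le_cpow h0 (by norm_num : 3 ≤ 8) x).trans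
    (cpow_even_le_zero (fun z => tau_neg _ z) 4 x)

theorem main_le (p : ℝ) {r : ℕ} (hr : 1 ≤ r) (n : ℕ) (U : Finset (V d)) {y y' : V d}
    (hy : y ∉ U) (hy' : y' ∉ U) :
    Pr d {ω : Om d | (ClA (Del.ofSet (U : Set (V d))) (opn p ω) y).Infinite ∧
      (ClA (Del.ofSet (U : Set (V d))) (opn p ω) y').Infinite} ≤
      PB.Gam d p r ^ 2 + 2 * (cpow (PB.kap p r) 3 (y' - y) * thn d p n) := by
  refine le_trans (measure_mono ?_) ((measure_union_le _ _).trans
    (add_le_add (caseA_le p (U : Set (V d)) hr y y') (caseB_le p (U : Set (V d)) r n y y')))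
  rintro ω ⟨h1, h2⟩
  rw [ClA_ofSet (by simpa using hy)] at h1
  rw [ClA_ofSet (by simpa using hy')] at h2
  have hL : LocFin ((Del.ofSet (U : Set (V d))).rem (opn p ω)) :=
    LocFin.mono ((Del.rem_subset _ _).trans (opn_subset p ω)) (lat_locFin d)
  rcases case_split hL hr h1 h2 with h | h
  · exact Or.inl h
  · exact Or.inr ⟨h, h1⟩

/-- 12.2: field `h2` of `In12` -/
theorem h12_2 (hC : Crit d)
    (h9 : ∃ C : ℝ, 1 ≤ C ∧ ∀ p : ℝ, pc d ≤ p → p ≤ 1 → thr d p ≤ C * (p - pc d))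
    (h10 : Out10 d) :
    ∃ C e0 : ℝ, 1 ≤ C ∧ 0 < e0 ∧ ∀ ε₁ : ℝ, 0 < ε₁ → ε₁ ≤ e0 → ∀ (U : Finset (V d)) (y y' : V d),
    y ∉ U → y' ∉ U → y ≠ y' →
    (Pr d {ω : Om d | (ClA (Del.ofSet (U : Set (V d))) (opn (pc d + ε₁) ω) y).Infinite ∧
      (ClA (Del.ofSet (U : Set (V d))) (opn (pc d + ε₁) ω) y').Infinite}).toReal ≤
      C * ε₁ ^ 2 + C * ε₁ * (cpow (tau (pc d)) 3 (y' - y)).toReal := by
  obtain ⟨C9, hC9, h9⟩ := h9
  obtain ⟨C10, hC10, h10a⟩ := h10.one_arm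
  have hpc := hC.pc_pos
  have hpc1 := hC.pc_lt
  set E := Real.exp (2 / pc d) with hE
  have hE1 : 1 ≤ E := Real.one_le_exp (by positivity)
  have hEC : 1 ≤ (E * C10) ^ 2 := one_le_pow₀ (by nlinarith)
  refine ⟨(E * C10) ^ 2 + 2 * E ^ 3 * C9, min 1 (1 - pc d), ?_, lt_min one_pos (by linarith), ?_⟩
  · have : 0 ≤ 2 * E ^ 3 * C9 := by positivity
    linarith
  intro ε h0 h1 U y y' hy hy' _
  have he1 : ε ≤ 1 := h1.trans (min_le_left _ _)
  have he2 : pc d + ε ≤ 1 := by linarith [h1.trans (min_le_right _ _)]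
  set r := ⌈1 / ε⌉₊ with hr
  have hr1 : 1 ≤ r := ceil_pos h0
  have hpw : ((pc d + ε) / pc d) ^ r ≤ E := pow_bound hpc h0 he1
  -- the radius
  have hG : PB.Gam d (pc d + ε) r ≤ ENNReal.ofReal (E * C10 * ε) := by
    calc PB.Gam d (pc d + ε) r ≤ ENNReal.ofReal (((pc d + ε) / pc d) ^ r) * PB.Gam d (pc d) r :=
          h10.keepG _ _ (by linarith) he2
      _ ≤ ENNReal.ofReal E * ENNReal.ofReal (C10 / r) := by
          gcongr
          exact h10a r hr1
      _ = ENNReal.ofReal (E * (C10 / r)) := (ENNReal.ofReal_mul (by positivity)).symm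
      _ ≤ ENNReal.ofReal (E * C10 * ε) := by
          refine ENNReal.ofReal_le_ofReal ?_
          have := inv_ceil h0
          calc E * (C10 / r) = E * C10 * (1 / r) := by ring
            _ ≤ E * C10 * ε := by gcongr
  -- the short connections
  have hk : ∀ x : V d, PB.kap (pc d + ε) r x ≤ ENNReal.ofReal E * tau (pc d) x := by
    intro x
    calc PB.kap (pc d + ε) r x ≤ ENNReal.ofReal (((pc d + ε) / pc d) ^ r) * PB.kap (pc d) r x :=
          h10.keepK _ _ _ (by linarith) he2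
      _ ≤ ENNReal.ofReal E * tau (pc d) x := by
          gcongr
          exact measure_mono fun ω (hω : RchL _ _ _ _) => hω.rch
  set T3 := cpow (tau (d := d) (pc d)) 3 (y' - y) with hT3
  have hT3f : T3 ≠ ⊤ := (T3_lt hC _).ne
  have hk3 : cpow (PB.kap (d := d) (pc d + ε) r) 3 (y' - y) ≤ ENNReal.ofReal (E ^ 3) * T3 := by
    refine (cpow_mono hk 3 _).trans ?_
    rw [cpow3_smul, ENNReal.ofReal_pow (by positivity)]
  -- the main inequality for all `n`
  have hmain : ∀ n : ℕ,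
      (Pr d {ω : Om d | (ClA (Del.ofSet (U : Set (V d))) (opn (pc d + ε) ω) y).Infinite ∧
        (ClA (Del.ofSet (U : Set (V d))) (opn (pc d + ε) ω) y').Infinite}).toReal ≤
      (E * C10 * ε) ^ 2 + 2 * (E ^ 3 * T3.toReal * (thn d (pc d + ε) n).toReal) := by
    intro n
    have hth : thn d (pc d + ε) n ≠ ⊤ := measure_ne_top _ _
    have h2 : Pr d {ω : Om d | (ClA (Del.ofSet (U : Set (V d))) (opn (pc d + ε) ω) y).Infinite ∧
        (ClA (Del.ofSet (U : Set (V d))) (opn (pc d + ε) ω) y').Infinite} ≤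
        ENNReal.ofReal (E * C10 * ε) ^ 2 +
          2 * (ENNReal.ofReal (E ^ 3) * T3 * thn d (pc d + ε) n) := by
      refine (main_le (pc d + ε) hr1 n U hy hy').trans ?_
      gcongr
    have h3 := ENNReal.toReal_mono (by
      refine ENNReal.add_ne_top.2 ⟨ENNReal.pow_ne_top ENNReal.ofReal_ne_top,
        ENNReal.mul_ne_top (by norm_num) (ENNReal.mul_ne_top (ENNReal.mul_ne_top
          ENNReal.ofReal_ne_top hT3f) hth)⟩) h2
    rw [ENNReal.toReal_add (ENNReal.pow_ne_top ENNReal.ofReal_ne_top)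
      (ENNReal.mul_ne_top (by norm_num) (ENNReal.mul_ne_top (ENNReal.mul_ne_top
          ENNReal.ofReal_ne_top hT3f) hth)), ENNReal.toReal_pow, ENNReal.toReal_ofReal
      (by positivity), ENNReal.toReal_mul, ENNReal.toReal_mul, ENNReal.toReal_mul,
      ENNReal.toReal_ofReal (by positivity)] at h3
    simpa using h3
  have hlim : Tendsto (fun n : ℕ => (E * C10 * ε) ^ 2 +
      2 * (E ^ 3 * T3.toReal * (thn d (pc d + ε) n).toReal)) atTop
      (𝓝 ((E * C10 * ε) ^ 2 + 2 * (E ^ 3 * T3.toReal * thr d (pc d + ε)))) :=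
    Tendsto.const_add _ (Tendsto.const_mul _ (Tendsto.const_mul _ (thn_tendsto _)))
  refine (ge_of_tendsto' hlim hmain).trans ?_
  have hth : thr d (pc d + ε) ≤ C9 * ε := by
    have := h9 (pc d + ε) (by linarith) he2
    simpa using this
  have hT0 : 0 ≤ T3.toReal := ENNReal.toReal_nonneg
  have hE3 : 0 ≤ E ^ 3 * T3.toReal := by positivity
  have hb1 : E ^ 3 * T3.toReal * thr d (pc d + ε) ≤ E ^ 3 * T3.toReal * (C9 * ε) :=
    mul_le_mul_of_nonneg_left hth hE3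
  have hb2 : 0 ≤ 2 * E ^ 3 * C9 * ε ^ 2 := by positivity
  have hb3 : 0 ≤ (E * C10) ^ 2 * ε * T3.toReal := by positivity
  nlinarith [hb1, hb2, hb3]

end Pool.Agent.PB.M12
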