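import Pool.Agent.PB.M12.One
import Pool.Agent.PB.M12.Two

/-!
# PROJECT PB: `in12 : ... → In12 d` from 12.1, 12.2 (helper58) and 12.3 (helper39)
-/

set_option autoImplicit false
open MeasureTheory Filter Topology
open scoped ENNReal BigOperators

namespace Pool.Agent.PB.M12

variable {d : ℕ}

/-- the interface `In12` from 12.3 -/
theorem in12 {b : ℝ} (hC : Crit d) (h9 : Out9 d b) (h10 : Out10 d)
    (h3 : ∃ c4 : ℝ, 0 < c4 ∧ ∀ (U : Finset (V d)) (T : Finset (V d × V d)) (p1 p2 c3 : ℝ),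
      pc d < p1 → p1 ≤ p2 → p2 < 1 → 0 < c3 → c3 ≤ 1 → (∀ q ∈ T, q.2 ∉ U) →
      c3 ≤ (Pr d (infT p1 U T)).toReal →
      1 - (Pr d (infT p2 U T)).toReal ≤ (1 / c3) * ((p1 - pc d) / (p2 - pc d)) ^ c4) :
    In12 d where
  h1 := h12_1 hC
  h2 := h12_2 hC h9.th_le h10
  h3 := h3

end Pool.Agent.PB.M12
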