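import Pool.Agent.PB.M12.Defs
import Pool.Agent.PB.C.Exit
import Pool.Agent.PB.P.BKw
import Pool.Agent.PB.P.Conv
import Pool.Agent.PB.T.Defs

/-!
# PROJECT PB, module M12-LASTEXIT (Section 12.1): `φ_p(S ∪ U; u) ≤ p Σ_{(x,y) ∈ ∂U} τ_p(u-x) Ψ_S(y)`

`U`, `S` finite and disjoint, `u ∈ U`: last exit from `U` of a path from `u` inside `T = S ∪ U`.

PLAN.
* `last_exit` (deterministic): apply `S3.exit_split` (PB/C/Exit.lean; a job of helper36, the statement
  is final) to the reversed connection `z → u` (`z ∈ S`, `u ∉ S`) in `O' = O ∩ ins (S ∪ U)`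
  (`rch_iff_exists_RchL`): edge `s(y,x) ∈ O'`, `y ∈ S`, `x ∉ S` hence `x ∈ U`, `S1 ⊆ O' ∩ ins S`,
  `S2 ⊆ O'`. Use `Rch.symm`, `Sym2.eq_swap`.
* `pin_le`: for `z ∈ S` the event `{Rch (opn p ω ∩ ins (S ∪ U)) u z}` is contained in the union over
  `q = (x,y) ∈ bdE U U`, `y ∈ S`, of the event that there are disjoint finite sets of open edges with
  `u → x`, `{s(x,y)}`, `y → z` inside `S` (note `l1 (y - x) = 1` since `O ⊆ lat`, `mem_bdE`).
  By `T10.dOcc_of_sets` (PB/T/Defs.lean; `k = 3`, `f = ![fun S' => Rch S' u x,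
  fun S' => s(x,y) ∈ S', fun S' => Rch (S' ∩ ins S) y z]`) and `bk_Pr`, `Fin.prod_univ_three`:
  probability `≤ Pr {u ↔ x} * Pr {s(x,y) open} * S3.pin p S y z`; `Pr {Rch (opn p ω) u x} =
  tau p (x - u) = tau p (u - x)` (`tau_shift`, `tau_neg` in PB/P/Act.lean), `S3.Pr_edge_le` and
  `J p (y - x) = ofReal p`. `measure_biUnion_finset_le`.
* `phi_union_le`: `phi p (S ∪ U) u = ∑' z, ∑' w, [z ∈ T, w ∉ T] J p (w - z) * pin p T u z` (`T = S ∪ U`).
  Split according to `z ∈ S` or `z ∈ U` (`S`, `U` disjoint):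
  - `z ∈ S`: `pin_le`, then exchange sums (`∑' z, ∑' w` and the finite sum over `q`):
    `≤ ∑ q ∈ bdE U U, [q.2 ∈ S] ofReal p * tau p (u - q.1) * ∑' z, ∑' w, [z ∈ S, w ∉ S, w ∉ U]
      J p (w - z) * pin p S q.2 z = ∑ q, [q.2 ∈ S] ofReal p * tau * phU p U S q.2`;
  - `z ∈ U`: `w ∉ T`: `J p (w - z) ≠ 0` iff `l1 (w - z) = 1`, so the pairs `(z,w)` are the
    `q ∈ bdE U U` with `q.2 ∉ S`; `J p (w - z) = ofReal p`, `pin p T u z ≤ tau p (u - z)`
    (`Rch.mono`). Sum over pairs `= ∑ q ∈ bdE U U, [q.2 ∉ S] ..` (`tsum_eq_sum` on `V d × V d`,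
    `ENNReal.tsum_prod`).
  Together `Psi p U S q.2 = if q.2 ∈ S then phU else 1`.
-/

set_option autoImplicit false
open MeasureTheory Filter Topology
open scoped ENNReal BigOperators

namespace Pool.Agent.PB.M12

theorem last_exit {W : Type*} {O : Set (Sym2 W)} {S U : Set W} {u z : W} (hu : u ∉ S)
    (hz : z ∈ S) (h : Rch (O ∩ ins (S ∪ U)) u z) :
    ∃ x y : W, x ∈ U ∧ x ∉ S ∧ y ∈ S ∧ s(x, y) ∈ O ∧ ∃ S1 S2 : Set (Sym2 W),
      S1.Finite ∧ S2.Finite ∧ S1 ⊆ O ∩ ins S ∧ S2 ⊆ O ∧ Disjoint S1 S2 ∧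
      s(x, y) ∉ S1 ∧ s(x, y) ∉ S2 ∧ Rch S2 u x ∧ Rch S1 y z := by
  obtain ⟨n, hn⟩ := rch_iff_exists_RchL.1 h.symm
  obtain ⟨y, x, hy, hx, hxy, S1, S2, f1, f2, s1, s2, hd, n1, n2, r1, r2⟩ :=
    S3.exit_split hn hz hu
  have hsw : s(x, y) = s(y, x) := Sym2.eq_swap
  refine ⟨x, y, ?_, hx, hy, ?_, S1, S2, f1, f2, ?_, ?_, hd, ?_, ?_, r2.rch.symm, r1.symm⟩
  · have h1 : x ∈ S ∪ U := hxy.2 x (Sym2.mem_mk_right _ _)
    exact h1.resolve_left hx
  · rw [hsw]; exact hxy.1
  · exact fun e he => ⟨(s1 he).1.1, (s1 he).2⟩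
  · exact fun e he => (s2 he).1
  · rw [hsw]; exact n1
  · rw [hsw]; exact n2

variable {d : ℕ}

/-- the three events -/
private def f3 (S : Finset (V d)) (u x y z : V d) : Fin 3 → Set (Sym2 (V d)) → Prop :=
  ![fun O => Rch O u x, fun O => s(x, y) ∈ O, fun O => Rch (O ∩ ins (S : Set (V d))) y z]

theorem pin_le (p : ℝ) {U S : Finset (V d)} (hSU : Disjoint S U) {u z : V d} (hu : u ∈ U)
    (hz : z ∈ S) : S3.pin p (S ∪ U) u z ≤
      ∑ q ∈ bdE U U, (if q.2 ∈ S then
        ENNReal.ofReal p * tau p (u - q.1) * S3.pin p S q.2 z else 0) := by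
  have huS : u ∉ (S : Set (V d)) := fun h => Finset.disjoint_left.1 hSU h hu
  rw [← Finset.sum_filter]
  calc S3.pin p (S ∪ U) u z ≤ Pr d (⋃ q ∈ (bdE U U).filter (fun q => q.2 ∈ S),
        dOcc (fun j => {ω : Om d | f3 S u q.1 q.2 z j (opn p ω)})) := by
        refine measure_mono fun ω hω => ?_
        have h1 : Rch (opn p ω ∩ ins ((S : Set (V d)) ∪ (U : Set (V d)))) u z := by
          rw [← Finset.coe_union]; exact hω
        obtain ⟨x, y, hx, hxS, hy, hxy, S1, S2, a1, a2, b1, b2, hd, n1, n2, r2, r1⟩ :=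
          last_exit huS (Finset.mem_coe.2 hz) h1
        have hlat : l1 (y - x) = 1 := (SimpleGraph.mem_edgeSet _).1 hxy.1
        simp only [Set.mem_iUnion]
        refine ⟨(x, y), ?_, ?_⟩
        · rw [Finset.mem_filter, mem_bdE]
          refine ⟨⟨hx, ?_, hlat⟩, hy⟩
          exact fun h => Finset.disjoint_left.1 hSU hy h
        · refine T10.dOcc_of_sets (p := p) (ω := ω) (f := f3 S u x y z) ?_
            ![S2, {s(x, y)}, S1] ?_ ?_ ?_ ?_
          · intro j O O' hO
            fin_cases j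
            · exact fun h => Rch.mono hO h
            · exact fun h => hO h
            · exact fun h => Rch.mono (Set.inter_subset_inter_left _ hO) h
          · intro j
            fin_cases j
            · exact b2
            · exact Set.singleton_subset_iff.2 hxy
            · exact fun e he => (b1 he).1
          · intro j
            fin_cases j
            · exact a2
            · exact Set.finite_singleton _
            · exact a1
          · have d1 : Disjoint S2 {s(x, y)} := Set.disjoint_singleton_right.2 n2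
            have d2 : Disjoint ({s(x, y)} : Set (Sym2 (V d))) S1 :=
              Set.disjoint_singleton_left.2 n1
            intro i j hij
            fin_cases i <;> fin_cases j <;>
              first
                | exact absurd rfl hij
                | exact d1
                | exact d2
                | exact d1.symm
                | exact d2.symm
                | exact hd
                | exact hd.symm
          · intro j
            fin_cases j
            · exact r2
            · exact Set.mem_singleton _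
            · exact Rch.mono (fun e he => ⟨he, (b1 he).2⟩ : S1 ⊆ S1 ∩ ins (S : Set (V d))) r1
    _ ≤ ∑ q ∈ (bdE U U).filter (fun q => q.2 ∈ S),
        Pr d (dOcc (fun j => {ω : Om d | f3 S u q.1 q.2 z j (opn p ω)})) :=
        measure_biUnion_finset_le _ _
    _ ≤ _ := by
        refine Finset.sum_le_sum fun q hq => ?_
        rw [Finset.mem_filter, mem_bdE] at hq
        obtain ⟨⟨q1, q2, q3⟩, q4⟩ := hq
        refine (bk_Pr ?_ ?_).trans ?_
        · intro j
          fin_cases j
          · exact (opn_MES p).rch u q.1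
          · exact opn_MES p s(q.1, q.2)
          · exact ((opn_MES p).inter (MES.const _)).rch q.2 z
        · intro j ω ω' hω h
          have hO : opn p ω ⊆ opn p ω' :=
            fun e he => ⟨he.1, le_trans (by exact_mod_cast hω (Sum.inl e)) he.2⟩
          fin_cases j
          · exact Rch.mono hO h
          · exact hO h
          · exact Rch.mono (Set.inter_subset_inter_left _ hO) h
        · rw [Fin.prod_univ_three]
          have e0 : Pr d {ω : Om d | f3 S u q.1 q.2 z 0 (opn p ω)} = tau p (u - q.1) := by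
            rw [← neg_sub q.1 u, tau_neg]
            exact tau_shift p u q.1
          have e1 : Pr d {ω : Om d | f3 S u q.1 q.2 z 1 (opn p ω)} ≤ ENNReal.ofReal p := by
            rw [← J_of_eq p q3]
            exact S3.Pr_edge_le p q.1 q.2
          have e2 : Pr d {ω : Om d | f3 S u q.1 q.2 z 2 (opn p ω)} = S3.pin p S q.2 z := rfl
          rw [e0, e2, mul_comm (ENNReal.ofReal p)]
          gcongr

theorem phi_union_le (p : ℝ) {U S : Finset (V d)} (hSU : Disjoint S U) {u : V d} (hu : u ∈ U) :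
    phi p (S ∪ U) u ≤ ∑ q ∈ bdE U U,
      ENNReal.ofReal p * tau p (u - q.1) * Psi p (U : Set (V d)) S q.2 := by
  classical
  have key : ∀ z w : V d, (if z ∈ S ∪ U ∧ w ∉ S ∪ U then
      J p (w - z) * Pr d {ω | Rch (opn p ω ∩ ins ((S ∪ U : Finset (V d)) : Set (V d))) u z}
        else 0) ≤
      (∑ q ∈ bdE U U, if q.2 ∈ S then (ENNReal.ofReal p * tau p (u - q.1) *
        (if z ∈ S ∧ w ∉ S ∧ w ∉ U then (J p (w - z) * S3.pin p S q.2 z) else 0)) else 0) +
      ∑ q ∈ bdE U U, if q.1 = z ∧ q.2 = w ∧ q.2 ∉ S then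
        ENNReal.ofReal p * tau p (u - q.1) else 0 := by
    intro z w
    by_cases h : z ∈ S ∪ U ∧ w ∉ S ∪ U
    swap
    · rw [if_neg h]; exact zero_le
    rw [if_pos h]
    obtain ⟨hz, hw⟩ := h
    rw [Finset.mem_union, not_or] at hw
    rcases Finset.mem_union.1 hz with hz | hz
    · refine le_trans ?_ (le_self_add)
      refine le_trans (mul_le_mul_right (pin_le p hSU hu hz) _) ?_
      rw [Finset.mul_sum]
      refine Finset.sum_le_sum fun q _ => ?_
      by_cases hq : q.2 ∈ S
      · rw [if_pos hq, if_pos hq, if_pos ⟨hz, hw.1, hw.2⟩]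
        exact le_of_eq (by ring)
      · rw [if_neg hq, if_neg hq, mul_zero]
    · refine le_trans ?_ (le_add_self)
      by_cases hl : l1 (w - z) = 1
      · have hm : (z, w) ∈ bdE U U := mem_bdE.2 ⟨hz, hw.2, hl⟩
        refine le_trans ?_ (Finset.single_le_sum (f := fun q : V d × V d =>
          if q.1 = z ∧ q.2 = w ∧ q.2 ∉ S then ENNReal.ofReal p * tau p (u - q.1) else 0)
          (fun _ _ => zero_le) hm)
        rw [if_pos ⟨rfl, rfl, hw.1⟩, J_of_eq p hl]
        refine mul_le_mul_right ?_ _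
        rw [← neg_sub z u, tau_neg, ← tau_shift]
        exact measure_mono fun ω hω => Rch.mono Set.inter_subset_left hω
      · have : J p (w - z) = 0 := by
          unfold J; rw [if_neg hl]
        rw [this, zero_mul]
        exact zero_le
  have s1 : ∀ q : V d × V d, q ∈ bdE U U → (∑' z : V d, ∑' w : V d,
      (if q.2 ∈ S then (ENNReal.ofReal p * tau p (u - q.1) *
        (if z ∈ S ∧ w ∉ S ∧ w ∉ U then (J p (w - z) * S3.pin p S q.2 z) else 0)) else 0)) =
      if q.2 ∈ S then ENNReal.ofReal p * tau p (u - q.1) * S3.phU p (U : Set (V d)) S q.2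
        else 0 := by
    intro q _
    by_cases hq : q.2 ∈ S
    · simp only [if_pos hq, ENNReal.tsum_mul_left]
      congr 1
      unfold S3.phU
      refine tsum_congr fun z => tsum_congr fun w => ?_
      simp only [Finset.mem_coe]
      rfl
    · simp only [if_neg hq, tsum_zero]
  have s2 : ∀ q : V d × V d, q ∈ bdE U U → (∑' z : V d, ∑' w : V d,
      (if q.1 = z ∧ q.2 = w ∧ q.2 ∉ S then ENNReal.ofReal p * tau p (u - q.1) else 0)) =
      if q.2 ∈ S then 0 else ENNReal.ofReal p * tau p (u - q.1) := by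
    intro q _
    rw [tsum_eq_single q.1, tsum_eq_single q.2]
    · by_cases hq : q.2 ∈ S
      · rw [if_pos hq, if_neg (fun h => h.2.2 hq)]
      · rw [if_neg hq, if_pos ⟨rfl, rfl, hq⟩]
    · intro w hw
      rw [if_neg (fun h => hw h.2.1.symm)]
    · intro z hz
      rw [ENNReal.tsum_eq_zero]
      intro w
      rw [if_neg (fun h => hz h.1.symm)]
  have sw : ∀ f : V d × V d → V d → V d → ℝ≥0∞, (∑' z : V d, ∑' w : V d,
      ∑ q ∈ bdE U U, f q z w) = ∑ q ∈ bdE U U, ∑' z : V d, ∑' w : V d, f q z w := by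
    intro f
    have h1 : ∀ z : V d, (∑' w : V d, ∑ q ∈ bdE U U, f q z w) =
        ∑ q ∈ bdE U U, ∑' w : V d, f q z w := fun z =>
      Summable.tsum_finsetSum fun _ _ => ENNReal.summable
    simp_rw [h1]
    exact Summable.tsum_finsetSum fun _ _ => ENNReal.summable
  calc phi p (S ∪ U) u ≤ ∑' z : V d, ∑' w : V d,
      ((∑ q ∈ bdE U U, if q.2 ∈ S then (ENNReal.ofReal p * tau p (u - q.1) *
        (if z ∈ S ∧ w ∉ S ∧ w ∉ U then (J p (w - z) * S3.pin p S q.2 z) else 0)) else 0) +
      ∑ q ∈ bdE U U, if q.1 = z ∧ q.2 = w ∧ q.2 ∉ S then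
        ENNReal.ofReal p * tau p (u - q.1) else 0) := by
        unfold phi
        exact ENNReal.tsum_le_tsum fun z => ENNReal.tsum_le_tsum fun w => by
          convert key z w
    _ = (∑' z : V d, ∑' w : V d, ∑ q ∈ bdE U U,
        if q.2 ∈ S then (ENNReal.ofReal p * tau p (u - q.1) *
        (if z ∈ S ∧ w ∉ S ∧ w ∉ U then (J p (w - z) * S3.pin p S q.2 z) else 0)) else 0) +
        ∑' z : V d, ∑' w : V d, ∑ q ∈ bdE U U, (if q.1 = z ∧ q.2 = w ∧ q.2 ∉ S then
        ENNReal.ofReal p * tau p (u - q.1) else 0) := by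
        rw [← ENNReal.tsum_add]
        refine tsum_congr fun z => ?_
        rw [← ENNReal.tsum_add]
    _ = ∑ q ∈ bdE U U, (if q.2 ∈ S then
          ENNReal.ofReal p * tau p (u - q.1) * S3.phU p (U : Set (V d)) S q.2 else 0) +
        ∑ q ∈ bdE U U, (if q.2 ∈ S then 0 else ENNReal.ofReal p * tau p (u - q.1)) := by
        rw [sw, sw]
        congr 1
        · exact Finset.sum_congr rfl s1
        · exact Finset.sum_congr rfl s2
    _ = _ := by
        rw [← Finset.sum_add_distrib]
        refine Finset.sum_congr rfl fun q _ => ?_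
        unfold Psi
        by_cases hq : q.2 ∈ S
        · rw [if_pos hq, if_pos hq, if_pos hq, add_zero]
        · rw [if_neg hq, if_neg hq, if_neg hq, zero_add, mul_one]

end Pool.Agent.PB.M12
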