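import Pool.Agent.PB.M12.PhiS
import Pool.Agent.PB.M12.LastExit

/-!
# PROJECT PB, module M12-AVG (Section 12.1): average over the random set `SU`

`S3.SU U n O` = vertices of the box `bx n 0`, not in `U`, not connected to the complement of the box
off `U` (PB/C/Defs.lean). It is finite (`S3.SU_finite`), measurable (`S3.SU_MVS`, `opn_MES`).

PLAN.
* `mem_SU_iff`: for `y ∉ U`: `y ∉ SU U n O ↔ RU U n y O` (if `y ∉ bx n 0` then `RU` holds with `t = y`).
* `sum_SU`: `∑' S : Finset (V d), Pr {SU U n (opn p ω) = S} = 1`: the events are measurable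
  (`MVS.eq_set`), disjoint, and their union is everything (`SU_finite`): `measure_iUnion`.
* `sum_Psi`: `∑' S, Pr {SU = S} * Psi p0 U S y ≤ rho p U n y + thU p U n y` for `y ∉ U`, `p0 ≤ p`:
  `Pr {SU = S} * Psi ≤ Pr {y ∈ SU ∧ SU = S} * phU p U S y + Pr {y ∉ SU ∧ SU = S}` (if `y ∈ S`:
  `phU_mono`; on `{SU = S}` `y ∈ SU ↔ y ∈ S`), `ENNReal.tsum_add`, and
  `∑' S, Pr {y ∉ SU ∧ SU = S} = Pr {y ∉ SU} = thU p U n y` (`mem_SU_iff`).
* `avg`: `1 = ∑' S, Pr {SU = S} ≤ ∑' S, Pr {SU = S} * phi p0 (S ∪ U) u` (`phi_ge_of_mem`)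
  `≤ ∑' S, Pr {SU = S} * ∑ q ∈ bdE U U, ofReal p0 * tau p0 (u - q.1) * Psi p0 U S q.2`
  (`phi_union_le`; if `S`, `U` are not disjoint then `{SU = S} = ∅`), exchange the sums
  (`Finset.mul_sum`, `tsum_finsetSum`-like: `Summable.tsum_finsetSum` / `ENNReal.tsum_comm`),
  `ENNReal.tsum_mul_left`, `sum_Psi` (`q.2 ∉ U` by `mem_bdE`).
-/

set_option autoImplicit false
open MeasureTheory Filter Topology
open scoped ENNReal BigOperators

namespace Pool.Agent.PB.M12

variable {d : ℕ}

/-- the left hand side of `S3.russo_ineq` -/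
noncomputable def rho (p : ℝ) (U : Set (V d)) (n : ℕ) (y : V d) : ℝ≥0∞ :=
  ∑' S : Finset (V d), Pr d {ω | y ∈ S3.SU U n (opn p ω) ∧
    S3.SU U n (opn p ω) = (S : Set (V d))} * S3.phU p U S y

theorem mem_SU_iff {U : Set (V d)} {n : ℕ} {O : Set (Sym2 (V d))} {y : V d} (hy : y ∉ U) :
    y ∉ S3.SU U n O ↔ S3.RU U n y O := by
  constructor
  · intro h
    by_cases hb : y ∈ bx n (0 : V d)
    · by_contra hR
      exact h ⟨hb, hy, hR⟩
    · exact ⟨y, hb, Rch.refl _ _⟩
  · intro h h2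
    exact h2.2.2 h

private theorem meas_SU (p : ℝ) (U : Set (V d)) (n : ℕ) (S : Finset (V d)) :
    MeasurableSet {ω : Om d | S3.SU U n (opn p ω) = (S : Set (V d))} :=
  (S3.SU_MVS (opn_MES (d := d) p) U n).eq_set _

private theorem sum_split (p : ℝ) (U : Set (V d)) (n : ℕ) {A : Set (Om d)} (hA : MeasurableSet A) :
    ∑' S : Finset (V d), Pr d (A ∩ {ω | S3.SU U n (opn p ω) = (S : Set (V d))}) = Pr d A := by
  rw [← measure_iUnion]
  · congr 1
    ext ω
    simp only [Set.mem_iUnion, Set.mem_inter_iff, Set.mem_ofPred_eq]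
    constructor
    · rintro ⟨S, h1, _⟩
      exact h1
    · intro h
      exact ⟨(S3.SU_finite U n (opn p ω)).toFinset, h, by simp⟩
  · intro S S' hS
    rw [Function.onFun, Set.disjoint_left]
    rintro ω ⟨_, h1⟩ ⟨_, h2⟩
    have h1' : S3.SU U n (opn p ω) = (S : Set (V d)) := h1
    have h2' : S3.SU U n (opn p ω) = (S' : Set (V d)) := h2
    exact hS (Finset.coe_injective (h1'.symm.trans h2'))
  · exact fun S => hA.inter (meas_SU p U n S)

theorem sum_SU (p : ℝ) (U : Set (V d)) (n : ℕ) :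
    ∑' S : Finset (V d), Pr d {ω | S3.SU U n (opn p ω) = (S : Set (V d))} = 1 := by
  have h := sum_split (d := d) p U n MeasurableSet.univ
  rw [measure_univ] at h
  rw [← h]
  refine tsum_congr fun S => ?_
  rw [Set.univ_inter]

theorem sum_Psi {p0 p : ℝ} (h : p0 ≤ p) (U : Set (V d)) (n : ℕ) {y : V d} (hy : y ∉ U) :
    ∑' S : Finset (V d), Pr d {ω | S3.SU U n (opn p ω) = (S : Set (V d))} * Psi p0 U S y ≤
      rho p U n y + S3.thU p U n y := by
  classical
  have hA : MeasurableSet {ω : Om d | y ∉ S3.SU U n (opn p ω)} :=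
    (S3.SU_MVS (opn_MES (d := d) p) U n y).compl
  have hth : S3.thU p U n y = Pr d {ω : Om d | y ∉ S3.SU U n (opn p ω)} := by
    unfold S3.thU
    congr 1
    ext ω
    exact (mem_SU_iff hy).symm
  rw [hth, ← sum_split p U n hA, rho, ← ENNReal.tsum_add]
  refine ENNReal.tsum_le_tsum fun S => ?_
  unfold Psi
  split_ifs with hS
  · refine le_trans ?_ le_self_add
    refine mul_le_mul' (measure_mono ?_) (phU_mono h U S y)
    intro ω hω
    have hω' : S3.SU U n (opn p ω) = (S : Set (V d)) := hω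
    refine ⟨?_, hω'⟩
    rw [hω']
    exact hS
  · rw [mul_one]
    refine le_trans ?_ le_add_self
    refine measure_mono ?_
    intro ω hω
    have hω' : S3.SU U n (opn p ω) = (S : Set (V d)) := hω
    refine ⟨?_, hω'⟩
    change y ∉ S3.SU U n (opn p ω)
    rw [hω']
    exact hS

theorem avg {p0 p : ℝ} (h : p0 ≤ p) (hphi : ∀ S : Finset (V d), (0 : V d) ∈ S → 1 ≤ phi p0 S 0)
    (U : Finset (V d)) {u : V d} (hu : u ∈ U) (n : ℕ) :
    1 ≤ ∑ q ∈ bdE U U, ENNReal.ofReal p0 * tau p0 (u - q.1) *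
      (rho p (U : Set (V d)) n q.2 + S3.thU p (U : Set (V d)) n q.2) := by
  classical
  have h1 : ∀ S : Finset (V d), Pr d {ω : Om d | S3.SU (U : Set (V d)) n (opn p ω) =
      (S : Set (V d))} ≤ Pr d {ω : Om d | S3.SU (U : Set (V d)) n (opn p ω) =
      (S : Set (V d))} * ∑ q ∈ bdE U U,
      ENNReal.ofReal p0 * tau p0 (u - q.1) * Psi p0 (U : Set (V d)) S q.2 := by
    intro S
    by_cases hd : Disjoint S U
    · have h2 : 1 ≤ phi p0 (S ∪ U) u := phi_ge_of_mem hphi (Finset.mem_union_right _ hu)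
      exact le_mul_of_one_le_right zero_le (h2.trans (phi_union_le p0 hd hu))
    · have h2 : {ω : Om d | S3.SU (U : Set (V d)) n (opn p ω) = (S : Set (V d))} = ∅ := by
        rw [Set.eq_empty_iff_forall_notMem]
        intro ω hω
        have hω' : S3.SU (U : Set (V d)) n (opn p ω) = (S : Set (V d)) := hω
        apply hd
        rw [Finset.disjoint_left]
        intro x hx hxU
        have h3 : x ∈ S3.SU (U : Set (V d)) n (opn p ω) := by
          rw [hω']
          exact hx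
        exact h3.2.1 hxU
      rw [h2, measure_empty, zero_mul]
  calc (1 : ℝ≥0∞) = ∑' S : Finset (V d), Pr d {ω : Om d | S3.SU (U : Set (V d)) n (opn p ω) =
        (S : Set (V d))} := (sum_SU p _ n).symm
    _ ≤ ∑' S : Finset (V d), Pr d {ω : Om d | S3.SU (U : Set (V d)) n (opn p ω) =
        (S : Set (V d))} * ∑ q ∈ bdE U U,
        ENNReal.ofReal p0 * tau p0 (u - q.1) * Psi p0 (U : Set (V d)) S q.2 :=
        ENNReal.tsum_le_tsum h1
    _ = ∑' S : Finset (V d), ∑ q ∈ bdE U U, ENNReal.ofReal p0 * tau p0 (u - q.1) *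
        (Pr d {ω : Om d | S3.SU (U : Set (V d)) n (opn p ω) = (S : Set (V d))} *
          Psi p0 (U : Set (V d)) S q.2) := by
        refine tsum_congr fun S => ?_
        rw [Finset.mul_sum]
        exact Finset.sum_congr rfl fun q _ => by ring
    _ = ∑ q ∈ bdE U U, ∑' S : Finset (V d), ENNReal.ofReal p0 * tau p0 (u - q.1) *
        (Pr d {ω : Om d | S3.SU (U : Set (V d)) n (opn p ω) = (S : Set (V d))} *
          Psi p0 (U : Set (V d)) S q.2) :=
        Summable.tsum_finsetSum fun q _ => ENNReal.summable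
    _ ≤ _ := by
        refine Finset.sum_le_sum fun q hq => ?_
        rw [ENNReal.tsum_mul_left]
        gcongr
        exact sum_Psi h (U : Set (V d)) n (fun hh => (mem_bdE.1 hq).2.1 (Finset.mem_coe.1 hh))

end Pool.Agent.PB.M12
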