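import Pool.Agent.PB.L.Defs
import Pool.Agent.PB.P.Act
import Pool.Agent.PB.C.Defs

/-!
# PROJECT PB, Sections 12.1 and 12.2: definitions (helper58)

`CaseA`, `CaseB`: the two cases of 12.2. `Wit1`, `Wit2`: `CaseB` with an attached connection from
a vertex `v` of the two paths to a far vertex. `thn d p n = P_p(0 → complement of the box n)`.
`Psi p U S y` = `Ψ_S(y)` of 12.1.
-/

set_option autoImplicit false
open MeasureTheory Filter Topology
open scoped ENNReal BigOperators

namespace Pool.Agent.PB.M12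

/-! ### 12.2 -/

section Det
variable {W : Type*}

/-- every vertex is in finitely many edges -/
def LocFin (O : Set (Sym2 W)) : Prop := ∀ x : W, {z | s(x, z) ∈ O}.Finite

/-- first case: the ball of `y'` off the ball of `y` has radius at least `r` -/
def CaseA (O : Set (Sym2 W)) (r : ℕ) (y y' : W) : Prop :=
  (Sph O r y).Nonempty ∧ (Sph (O \ touch (Bl O (r - 1) y)) r y').Nonempty

/-- second case: `y` and `y'` are joined via some `w` by edge-disjoint paths of length `≤ r` -/
def CaseB (O : Set (Sym2 W)) (r : ℕ) (y y' : W) : Prop :=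
  ∃ (w : W) (S1 S2 : Set (Sym2 W)), S1 ⊆ O ∧ S2 ⊆ O ∧ Disjoint S1 S2 ∧
    RchL S1 r y w ∧ RchL S2 r w y'

/-- finite edge-disjoint sets of edges of `O` in which `a → b`, `b → c`, `c → e` by at most `r`
edges and `v → T` -/
def Wit (O : Set (Sym2 W)) (r : ℕ) (a b c e v : W) (T : Set W) : Prop :=
  ∃ S : Fin 4 → Set (Sym2 W), (∀ j, S j ⊆ O) ∧ (∀ j, (S j).Finite) ∧
    Pairwise (Function.onFun Disjoint S) ∧ RchL (S 0) r a b ∧ RchL (S 1) r b c ∧
    RchL (S 2) r c e ∧ RchT (S 3) v T

end Det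

variable {d : ℕ}

/-- `P_p(0 → complement of the box of radius n)` -/
noncomputable def thn (d : ℕ) (p : ℝ) (n : ℕ) : ℝ≥0∞ :=
  Pr d {ω : Om d | RchT (opn p ω) (0 : V d) (bx n (0 : V d))ᶜ}

/-! ### 12.1 -/

/-- `Ψ_S(y)`: `φ^U_p(S; y)` if `y ∈ S`, `1` otherwise -/
noncomputable def Psi (p : ℝ) (U : Set (V d)) (S : Finset (V d)) (y : V d) : ℝ≥0∞ := by
  classical exact if y ∈ S then S3.phU p U S y else 1

/-! ### common facts -/

theorem lat_locFin (d : ℕ) : LocFin (lat d).edgeSet := by
  intro x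
  refine Set.Finite.subset (((U1 d).finite_toSet).image (fun e => x + e)) ?_
  intro z hz
  have h1 : l1 (z - x) = 1 := (SimpleGraph.mem_edgeSet _).1 hz
  exact ⟨z - x, (mem_U1 _).2 h1, by simp⟩

theorem LocFin.mono {W : Type*} {O O' : Set (Sym2 W)} (h : O ⊆ O') (hO : LocFin O') : LocFin O :=
  fun x => (hO x).subset fun _ hz => h hz

theorem opn_subset (p : ℝ) (ω : Om d) : opn p ω ⊆ (lat d).edgeSet := fun _ h => h.1

theorem bx_fin (R : ℕ) (x : V d) : (bx R x).Finite := by
  refine Set.Finite.subset (Finset.finite_toSet (Fintype.piFinset (fun i : Fin d =>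
    Finset.Icc (x i - R) (x i + R)))) ?_
  intro y hy
  simp only [Finset.mem_coe, Fintype.mem_piFinset, Finset.mem_Icc]
  intro i
  have := abs_le.1 (hy i)
  constructor <;> linarith [this.1, this.2]

end Pool.Agent.PB.M12
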