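import Pool.Agent.PB.M12.Defs
import Pool.Agent.PB.T.Tree

/-!
# PROJECT PB, module M12-DETA (Section 12.2, deterministic)

Everything is about an arbitrary edge set `O : Set (Sym2 W)`, locally finite.

PLAN.
* `bl_finite`: induction on `r`; `Bl O (r+1) x ⊆ Bl O r x ∪ ⋃ z ∈ Bl O r x, {b | s(z,b) ∈ O}`
  (definition of `RchL`).
* `sph_nonempty`: if `Sph O r x = ∅` then `Cl O x ⊆ Bl O r x`: show `RchL O n x z → RchL O r x z`
  by induction on `n` (for all z): for `n ≤ r` `RchL.mono_len`; let `n ≥ r`, `RchL O (n+1) x z`: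
  either `RchL O n x z` or `RchL O n x a`, `s(a,z) ∈ O`, so `RchL O r x a` by induction. As
  `a ∉ Sph O r x` there is `m < r` with `RchL O m x a` hence `RchL O (m+1) x z`, `m + 1 ≤ r`.
  (`rch_iff_exists_RchL`.) Contradiction with `bl_finite` and `hinf`. For `r = 0`: `x ∈ Sph O 0 x`.
* `rchL_touch`: a path of length `≤ r` from `y` only uses edges touching `Bl O (r-1) y`: induct on
  `j ≤ r`: `RchL O j y z → RchL (O ∩ touch (Bl O (r-1) y)) j y z` (the last edge `s(a,z)` has
  `RchL O (j-1) y a`, `j - 1 ≤ r - 1`).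
* `rchL_off`: if `Bl (O \ touch K) r y'` and `Bl O r y` are disjoint (`K = Bl O (r-1) y`, `1 ≤ r`)
  then `RchL O j y' z ↔ RchL (O \ touch K) j y' z` for `j ≤ r`: induct on `j`: last edge `s(a,z)`,
  `RchL (O \ touch K) (j-1) y' a`; if `s(a,z) ∈ touch K` then `a ∈ K` or `z ∈ K`, in both cases
  `a ∈ Bl O r y` (`RchL.symm`-type: `RchL O (r-1) y z`, edge `s(z,a)`), and `a ∈ Bl (..) r y'`.
* `case_split`: if disjoint: `Sph O r y' = Sph (O \ touch K) r y'` by `rchL_off`; both `sph_nonempty`.
  Otherwise `w` in both: `S1 = O ∩ touch K`, `S2 = O \ touch K`, `rchL_touch`, `RchL.symm`.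
-/

set_option autoImplicit false
open MeasureTheory Filter Topology
open scoped ENNReal BigOperators

namespace Pool.Agent.PB.M12

variable {W : Type*} {O : Set (Sym2 W)}

theorem bl_finite (h : LocFin O) (r : ℕ) (x : W) : (Bl O r x).Finite := by
  induction r with
  | zero =>
    refine (Set.finite_singleton x).subset ?_
    intro y hy
    exact (show x = y from hy).symm
  | succ n ih =>
    refine (ih.union (ih.biUnion (fun z _ => h z))).subset ?_
    intro y hy
    rcases hy with hy | ⟨z, hz, hzy⟩
    · exact Or.inl hy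
    · exact Or.inr (Set.mem_biUnion (show z ∈ Bl O n x from hz) hzy)

theorem sph_nonempty (h : LocFin O) {x : W} (hinf : (Cl O x).Infinite) (r : ℕ) :
    (Sph O r x).Nonempty := by
  by_contra hcon
  rw [Set.not_nonempty_iff_eq_empty] at hcon
  have key : ∀ n z, RchL O n x z → RchL O r x z := by
    intro n
    induction n with
    | zero =>
      intro z hz
      exact hz.mono_len (Nat.zero_le _)
    | succ n ih =>
      intro z hz
      rcases hz with hz | ⟨a, ha, haz⟩
      · exact ih z hz
      · have h1 := ih a ha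
        have h2 : a ∉ Sph O r x := by
          rw [hcon]
          exact Set.notMem_empty _
        have h3 : ∃ m, m < r ∧ RchL O m x a := by
          by_contra hc
          push Not at hc
          exact h2 ⟨h1, hc⟩
        obtain ⟨m, hm, hma⟩ := h3
        have h4 : RchL O (m + 1) x z := Or.inr ⟨a, hma, haz⟩
        exact h4.mono_len hm
  apply hinf
  refine (bl_finite h r x).subset ?_
  intro z hz
  obtain ⟨n, hn⟩ := rch_iff_exists_RchL.1 hz
  exact key n z hn

theorem rchL_touch {r j : ℕ} (hj : j ≤ r) {y z : W} (hr : RchL O j y z) :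
    RchL (O ∩ touch (Bl O (r - 1) y)) j y z := by
  induction j generalizing z with
  | zero => exact hr
  | succ n ih =>
    rcases hr with hr | ⟨a, ha, haz⟩
    · exact Or.inl (ih (by omega) hr)
    · have h1 : a ∈ Bl O (r - 1) y := ha.mono_len (by omega)
      exact Or.inr ⟨a, ih (by omega) ha, haz, a, Sym2.mem_mk_left a z, h1⟩

theorem rchL_off {r : ℕ} (hr : 1 ≤ r) {y y' : W}
    (hd : Disjoint (Bl (O \ touch (Bl O (r - 1) y)) r y') (Bl O r y)) {j : ℕ} (hj : j ≤ r) (z : W) :
    RchL O j y' z ↔ RchL (O \ touch (Bl O (r - 1) y)) j y' z := by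
  constructor
  · intro h
    induction j generalizing z with
    | zero => exact h
    | succ n ih =>
      rcases h with h | ⟨a, ha, haz⟩
      · exact Or.inl (ih (by omega) z h)
      · have h1 := ih (by omega) a ha
        refine Or.inr ⟨a, h1, haz, ?_⟩
        rintro ⟨x, hx, hxK⟩
        have hxK' : RchL O (r - 1) y x := hxK
        rw [Sym2.mem_iff] at hx
        have h2 : a ∈ Bl O r y := by
          rcases hx with rfl | rfl
          · exact hxK'.mono_len (by omega)
          · have h3 : RchL O ((r - 1) + 1) y a := by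
              refine Or.inr ⟨x, hxK', ?_⟩
              rw [Sym2.eq_swap]
              exact haz
            exact h3.mono_len (by omega)
        exact Set.disjoint_left.1 hd (h1.mono_len (by omega)) h2
  · exact RchL.mono Set.diff_subset

theorem case_split (h : LocFin O) {r : ℕ} (hr : 1 ≤ r) {y y' : W} (hy : (Cl O y).Infinite)
    (hy' : (Cl O y').Infinite) : CaseA O r y y' ∨ CaseB O r y y' := by
  by_cases hd : Disjoint (Bl (O \ touch (Bl O (r - 1) y)) r y') (Bl O r y)
  · left
    refine ⟨sph_nonempty h hy r, ?_⟩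
    obtain ⟨z, hz, hz'⟩ := sph_nonempty h hy' r
    exact ⟨z, (rchL_off hr hd le_rfl z).1 hz,
      fun m hm hmz => hz' m hm ((rchL_off hr hd hm.le z).2 hmz)⟩
  · right
    rw [Set.not_disjoint_iff] at hd
    obtain ⟨w, hw, hw'⟩ := hd
    refine ⟨w, O ∩ touch (Bl O (r - 1) y), O \ touch (Bl O (r - 1) y), Set.inter_subset_left,
      Set.diff_subset, ?_, rchL_touch le_rfl hw', RchL.symm hw⟩
    rw [Set.disjoint_left]
    intro e he he'
    exact he'.2 he.2

end Pool.Agent.PB.M12
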