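import Pool.Agent.PB.M12.Defs
import Pool.Agent.PB.T.Tree

/-!
# PROJECT PB, module M12-DETB (Section 12.2, deterministic): attach a far vertex to the two paths

PLAN. `T10.walk_of_rchL`: `RchL O r x y` gives a path `p` in `SimpleGraph.fromEdgeSet O` with
`p.length ≤ r`; `T10.rchL_of_walk p : RchL {e | e ∈ p.edges} p.length x y`; see the proof of
`T10.tree_len` in PB/T/Tree.lean (copy from it: same construction with two paths instead of one).
* `attach`: `p1` path from `y` to `w` in `S1`, `p2` path from `w` to `y'` in `S2`,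
  `T = p1.support ∪ p2.support`. If `z ∈ T` put `v = z`, `S3 = ∅` (`Rch.refl`). Otherwise follow the
  connection from `z` to `y ∈ T` (`hz.symm`) until the first vertex `v ∈ T`
  (`Rch.exists_first_cross {x | x ∉ T}`): all the edges of this part have an endpoint outside `T`,
  so they are not edges of `p1`, `p2` (all endpoints of edges of a walk are in its support).
  If `v ∈ p1.support`: `S 0` = edges of `p1.takeUntil v`, `S 1` = edges of `p1.dropUntil v`,
  `S 2` = edges of `p2`, `S 3`: this is `Wit O r y v w y' v T'`. If `v ∈ p2.support`: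
  `S 0` = edges of `p1`, `S 1`, `S 2` = edges of `p2.takeUntil v`, `p2.dropUntil v`: this is
  `Wit O r y w v y' v T'`. Edges of a path are distinct; `S1`, `S2` are disjoint. The target: `v` is
  joined to `z ∈ T'`.
* `bx_rchL`: each step changes every coordinate by at most one.
* `attach_far`: `Cl O y` infinite: there is `z ∈ Cl O y` outside the finite box `bx (n + 2r) y`
  (`bx_fin`). Use `attach` with `T' = {z}` (then `Wit` with `T' = {z}` gives `Wit` with
  `(bx n v)ᶜ` since `v ∈ bx (2r) y` by `bx_rchL` and so `z ∉ bx n v`).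
-/

set_option autoImplicit false
open MeasureTheory Filter Topology
open scoped ENNReal BigOperators

namespace Pool.Agent.PB.M12


section aux

variable {W : Type*}

private theorem edges_sub' {O : Set (Sym2 W)} {x y : W}
    (p : (SimpleGraph.fromEdgeSet O).Walk x y) {e : Sym2 W} (he : e ∈ p.edges) : e ∈ O := by
  have := p.edges_subset_edgeSet he
  rw [SimpleGraph.edgeSet_fromEdgeSet] at this
  exact this.1

private theorem fin_edges' {O : Set (Sym2 W)} {x y : W}
    (p : (SimpleGraph.fromEdgeSet O).Walk x y) : {e | e ∈ p.edges}.Finite := p.edges.finite_toSet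

private theorem disj_split' {O : Set (Sym2 W)} {x y w : W} [DecidableEq W]
    (p : (SimpleGraph.fromEdgeSet O).Walk x y) (hp : p.IsPath) (hw : w ∈ p.support) :
    Disjoint {e | e ∈ (p.takeUntil w hw).edges} {e | e ∈ (p.dropUntil w hw).edges} := by
  have h1 : p.edges.Nodup := hp.isTrail.edges_nodup
  have h2 : p.edges = (p.takeUntil w hw).edges ++ (p.dropUntil w hw).edges := by
    rw [← SimpleGraph.Walk.edges_append, SimpleGraph.Walk.take_spec]
  rw [h2] at h1
  have h3 := List.disjoint_of_nodup_append h1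
  rw [Set.disjoint_left]
  intro e he he'
  exact h3 he he'

private theorem edges_supp {O : Set (Sym2 W)} {x y : W}
    (p : (SimpleGraph.fromEdgeSet O).Walk x y) {e : Sym2 W} (he : e ∈ p.edges) {v : W}
    (hv : v ∈ e) : v ∈ p.support := by
  induction e using Sym2.ind with
  | _ c d =>
    rcases Sym2.mem_iff.1 hv with rfl | rfl
    · exact p.fst_mem_support_of_mem_edges he
    · exact p.snd_mem_support_of_mem_edges he

private theorem wit_mk {O : Set (Sym2 W)} {r : ℕ} {a b c e v z : W} {S0 S1 S2 S3 : Set (Sym2 W)}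
    (h0 : S0 ⊆ O) (h1 : S1 ⊆ O) (h2 : S2 ⊆ O) (h3 : S3 ⊆ O)
    (f0 : S0.Finite) (f1 : S1.Finite) (f2 : S2.Finite) (f3 : S3.Finite)
    (d01 : Disjoint S0 S1) (d02 : Disjoint S0 S2) (d03 : Disjoint S0 S3)
    (d12 : Disjoint S1 S2) (d13 : Disjoint S1 S3) (d23 : Disjoint S2 S3)
    (r0 : RchL S0 r a b) (r1 : RchL S1 r b c) (r2 : RchL S2 r c e) (r3 : Rch S3 v z) :
    Wit O r a b c e v {z} := by
  refine ⟨![S0, S1, S2, S3], ?_, ?_, ?_, r0, r1, r2, ⟨z, rfl, r3⟩⟩
  · intro j
    fin_cases j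
    · exact h0
    · exact h1
    · exact h2
    · exact h3
  · intro j
    fin_cases j
    · exact f0
    · exact f1
    · exact f2
    · exact f3
  · intro i j hij
    fin_cases i <;> fin_cases j
    · exact absurd rfl hij
    · exact d01
    · exact d02
    · exact d03
    · exact d01.symm
    · exact absurd rfl hij
    · exact d12
    · exact d13
    · exact d02.symm
    · exact d12.symm
    · exact absurd rfl hij
    · exact d23
    · exact d03.symm
    · exact d13.symm
    · exact d23.symm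
    · exact absurd rfl hij

end aux

theorem attach {W : Type*} {O : Set (Sym2 W)} {r : ℕ} {y y' z : W} (h : CaseB O r y y')
    (hz : Rch O y z) : ∃ v w : W, Wit O r y v w y' v {z} ∨ Wit O r y w v y' v {z} := by
  classical
  obtain ⟨w, S1, S2, hS1, hS2, hS12, hr1, hr2⟩ := h
  obtain ⟨p1, hp1, hl1⟩ := T10.walk_of_rchL hr1
  obtain ⟨p2, hp2, hl2⟩ := T10.walk_of_rchL hr2
  have key : ∃ v, (v ∈ p1.support ∨ v ∈ p2.support) ∧ ∃ S3 : Set (Sym2 W), S3 ⊆ O ∧ S3.Finite ∧
      (∀ e ∈ S3, ∃ x ∈ e, x ∉ p1.support ∧ x ∉ p2.support) ∧ Rch S3 v z := by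
    by_cases hzT : z ∈ p1.support ∨ z ∈ p2.support
    · exact ⟨z, hzT, ∅, Set.empty_subset _, Set.finite_empty, fun e he => absurd he (by simp),
        Rch.refl _ _⟩
    · rw [not_or] at hzT
      obtain ⟨a, b, ha, hb, hab, hr⟩ := Rch.exists_first_cross
        {v | v ∉ p1.support ∧ v ∉ p2.support} (x := z) (y := y) hzT
        (fun h => h.1 p1.start_mem_support) hz.symm
      have hb' : b ∈ p1.support ∨ b ∈ p2.support := by
        by_contra hcon
        rw [not_or] at hcon
        exact hb hcon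
      have h3 : Rch {e ∈ O | ∃ x ∈ e, x ∉ p1.support ∧ x ∉ p2.support} z b := by
        refine Rch.tail (hr.mono ?_) (?_ : s(a, b) ∈ _)
        · intro e he
          refine ⟨he.1, ?_⟩
          induction e using Sym2.ind with
          | _ c d => exact ⟨c, Sym2.mem_mk_left c d, he.2 c (Sym2.mem_mk_left c d)⟩
        · exact ⟨hab, a, Sym2.mem_mk_left a b, ha⟩
      obtain ⟨S3, hS3, hfin, hr3⟩ := h3.exists_finite
      exact ⟨b, hb', S3, fun e he => (hS3 he).1, hfin, fun e he => (hS3 he).2, hr3.symm⟩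
  obtain ⟨v, hv, S3, hS3, hfin3, hout, hr3⟩ := key
  have hd1 : ∀ S : Set (Sym2 W), (∀ e ∈ S, e ∈ p1.edges) → Disjoint S S3 := by
    intro S hS
    rw [Set.disjoint_left]
    intro e he he'
    obtain ⟨x, hx, hxn⟩ := hout e he'
    exact hxn.1 (edges_supp p1 (hS e he) hx)
  have hd2 : ∀ S : Set (Sym2 W), (∀ e ∈ S, e ∈ p2.edges) → Disjoint S S3 := by
    intro S hS
    rw [Set.disjoint_left]
    intro e he he'
    obtain ⟨x, hx, hxn⟩ := hout e he'
    exact hxn.2 (edges_supp p2 (hS e he) hx)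
  have hd12 : ∀ S T : Set (Sym2 W), (∀ e ∈ S, e ∈ p1.edges) → (∀ e ∈ T, e ∈ p2.edges) →
      Disjoint S T := by
    intro S T hS hT
    exact hS12.mono (fun e he => edges_sub' p1 (hS e he)) (fun e he => edges_sub' p2 (hT e he))
  have hO1 : ∀ S : Set (Sym2 W), (∀ e ∈ S, e ∈ p1.edges) → S ⊆ O :=
    fun S hS e he => hS1 (edges_sub' p1 (hS e he))
  have hO2 : ∀ S : Set (Sym2 W), (∀ e ∈ S, e ∈ p2.edges) → S ⊆ O :=
    fun S hS e he => hS2 (edges_sub' p2 (hS e he))
  rcases hv with hv | hv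
  · have ht : ∀ e ∈ {e | e ∈ (p1.takeUntil v hv).edges}, e ∈ p1.edges := fun e he =>
      p1.edges_takeUntil_subset_edges hv he
    have hd : ∀ e ∈ {e | e ∈ (p1.dropUntil v hv).edges}, e ∈ p1.edges := fun e he =>
      p1.edges_dropUntil_subset_edges hv he
    have h2 : ∀ e ∈ {e | e ∈ p2.edges}, e ∈ p2.edges := fun e he => he
    refine ⟨v, w, Or.inl (wit_mk (hO1 _ ht) (hO1 _ hd) (hO2 _ h2) hS3 (fin_edges' _)
      (fin_edges' _) (fin_edges' _) hfin3 (disj_split' p1 hp1 hv) (hd12 _ _ ht h2) (hd1 _ ht)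
      (hd12 _ _ hd h2) (hd1 _ hd) (hd2 _ h2) ?_ ?_ ?_ hr3)⟩
    · exact (T10.rchL_of_walk (p1.takeUntil v hv)).mono_len
        ((p1.length_takeUntil_le_length hv).trans hl1)
    · exact (T10.rchL_of_walk (p1.dropUntil v hv)).mono_len
        ((p1.length_dropUntil_le_length hv).trans hl1)
    · exact (T10.rchL_of_walk p2).mono_len hl2
  · have ht : ∀ e ∈ {e | e ∈ (p2.takeUntil v hv).edges}, e ∈ p2.edges := fun e he =>
      p2.edges_takeUntil_subset_edges hv he
    have hd : ∀ e ∈ {e | e ∈ (p2.dropUntil v hv).edges}, e ∈ p2.edges := fun e he =>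
      p2.edges_dropUntil_subset_edges hv he
    have h1 : ∀ e ∈ {e | e ∈ p1.edges}, e ∈ p1.edges := fun e he => he
    refine ⟨v, w, Or.inr (wit_mk (hO1 _ h1) (hO2 _ ht) (hO2 _ hd) hS3 (fin_edges' _)
      (fin_edges' _) (fin_edges' _) hfin3 (hd12 _ _ h1 ht) (hd12 _ _ h1 hd) (hd1 _ h1)
      (disj_split' p2 hp2 hv) (hd2 _ ht) (hd2 _ hd) ?_ ?_ ?_ hr3)⟩
    · exact (T10.rchL_of_walk p1).mono_len hl1
    · exact (T10.rchL_of_walk (p2.takeUntil v hv)).mono_len
        ((p2.length_takeUntil_le_length hv).trans hl2)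
    · exact (T10.rchL_of_walk (p2.dropUntil v hv)).mono_len
        ((p2.length_dropUntil_le_length hv).trans hl2)

variable {d : ℕ}

theorem bx_rchL {O : Set (Sym2 (V d))} (hO : O ⊆ (lat d).edgeSet) {r : ℕ} {x y : V d}
    (h : RchL O r x y) : y ∈ bx r x := by
  induction r generalizing y with
  | zero =>
    obtain rfl : x = y := h
    intro i
    simp
  | succ n ih =>
    rcases h with h | ⟨z, hz, hzy⟩
    · intro i
      have := ih h i
      push_cast
      linarith
    · intro i
      have h1 := ih hz i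
      have h2 : l1 (y - z) = 1 := (SimpleGraph.mem_edgeSet _).1 (hO hzy)
      have h3 : |(y - z) i| ≤ l1 (y - z) := by
        unfold l1
        exact Finset.single_le_sum (f := fun i => |(y - z) i|) (fun _ _ => abs_nonneg _)
          (Finset.mem_univ i)
      rw [h2, Pi.sub_apply] at h3
      have h4 : y i - x i = (y i - z i) + (z i - x i) := by ring
      calc |y i - x i| ≤ |y i - z i| + |z i - x i| := by rw [h4]; exact abs_add_le _ _
        _ ≤ 1 + (n : ℤ) := add_le_add h3 h1
        _ = ((n + 1 : ℕ) : ℤ) := by push_cast; ring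

private theorem wit_far {O : Set (Sym2 (V d))} {r : ℕ} {a b c e v z : V d} {n : ℕ}
    (h : Wit O r a b c e v {z}) (hz : z ∉ bx n v) : Wit O r a b c e v (bx n v)ᶜ := by
  obtain ⟨S, h1, h2, h3, h4, h5, h6, t, ht, h7⟩ := h
  have : t = z := ht
  subst this
  exact ⟨S, h1, h2, h3, h4, h5, h6, t, hz, h7⟩

theorem attach_far {O : Set (Sym2 (V d))} (hO : O ⊆ (lat d).edgeSet) {r : ℕ} {y y' : V d}
    (h : CaseB O r y y') (hinf : (Cl O y).Infinite) (n : ℕ) :
    ∃ v w : V d, Wit O r y v w y' v (bx n v)ᶜ ∨ Wit O r y w v y' v (bx n v)ᶜ := by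
  obtain ⟨z, hz, hzn⟩ : ∃ z ∈ Cl O y, z ∉ bx (n + 2 * r) y := by
    by_contra hcon
    push Not at hcon
    exact hinf ((bx_fin (n + 2 * r) y).subset hcon)
  have hfar : ∀ v : V d, v ∈ bx (2 * r) y → z ∉ bx n v := by
    intro v hv hzv
    apply hzn
    intro i
    have h1 := hv i
    have h2 := hzv i
    have h4 : z i - y i = (z i - v i) + (v i - y i) := by ring
    calc |z i - y i| ≤ |z i - v i| + |v i - y i| := by rw [h4]; exact abs_add_le _ _
      _ ≤ (n : ℤ) + ((2 * r : ℕ) : ℤ) := add_le_add h2 h1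
      _ = ((n + 2 * r : ℕ) : ℤ) := by push_cast; ring
  obtain ⟨v, w, hw | hw⟩ := attach h hz
  · refine ⟨v, w, Or.inl (wit_far hw (hfar v ?_))⟩
    obtain ⟨S, h1, -, -, h4, -, -, -⟩ := hw
    exact bx_rchL hO ((h4.mono (h1 0)).mono_len (by omega))
  · refine ⟨v, w, Or.inr (wit_far hw (hfar v ?_))⟩
    obtain ⟨S, h1, -, -, h4, h5, -, -⟩ := hw
    have h6 := (h4.mono (h1 0)).trans (h5.mono (h1 1))
    exact bx_rchL hO (h6.mono_len (by omega))

end Pool.Agent.PB.M12
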