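import Pool.Agent.PB.M12.Avg
import Pool.Agent.PB.M12.ThLim
import Pool.Agent.PB.C.RussoI
import Pool.Agent.PB.C.Poly

/-!
# PROJECT PB, module M12-INT (Section 12.1): the differential inequality and its integration

`θ_y(q) = (S3.thU q U n y).toReal`.

PLAN.
* `deriv_nonneg`: `q ↦ θ_y(q)` is nondecreasing (`thU_mono_p`), so a derivative is `≥ 0`
  (`hasDerivAt_iff_tendsto_slope` and `ge_of_tendsto`, or a Mathlib lemma).
* `thU_cont`: `S3.RU_inter` (PB/C/SU.lean; final statement) shows that `RU U n y (opn q ω)` only depends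
  on the open edges in the finite set `L = S3.tE (S3.bxF d n)`; `S3.loc_poly` (PB/C/Poly.lean) with
  `f = RU U n y` gives a smooth `F` equal to `θ_y` on `[0,1]` (`S3.mem_tE`).
* `diff_ineq`: choose `D y` by `S3.russo_ineq` for every `y` (`choose`); for `u ∈ V'` (`⊆ U`) `avg`
  with `p0 = pc d`, `rho ≤ ofReal (p (1-p) D)` gives
  `1 ≤ ∑ q ∈ bdE U U, ofReal (pc d) * tau (pc d) (u - q.1) * (ofReal (p (1-p) D q.2) + thU ..)`;
  take `toReal` (everything is finite: `tau ≤ 1`, `thU ≤ 1`, `prob_le_one`; `ENNReal.toReal_sum`,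
  `toReal_mul`, `toReal_add`, `toReal_ofReal` with `p (1-p) D ≥ 0`):
  `1 ≤ ∑ q, pc d * ta (u - q.1) * (p (1-p) D q.2 + θ)`. Sum over `u ∈ V'` (`Finset.sum_comm`),
  `hV V' x = ∑ u ∈ V', ta (u - x)`.
* `int_ineq`: `f q = ∑ r ∈ bdE U U, hV V' r.1 * θ_{r.2}(q)`, continuous on `[pc, pc+ε₁] ⊆ [0,1]`,
  differentiable inside with `f' = ∑ hV V' r.1 * D r.2`. Mean value theorem
  (`exists_hasDerivAt_eq_slope`): there is `p ∈ (pc, pc + ε₁)` with `f' p = (f(p1) - f(pc))/ε₁`,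
  `p1 = pc + ε₁`. By `diff_ineq`, `p (1-p) ≤ 1/4`, `hV ≥ 0`, `D ≥ 0`, `f p ≤ f p1`, `f (pc) ≥ 0`:
  `|V'| ≤ pc (f' p / 4 + f p1) ≤ pc (f p1 / (4 ε₁) + f p1)`. Multiply by `ε₁ ≤ 1/4`:
  `ε₁ |V'| ≤ pc f p1 (1/4 + ε₁) ≤ (pc / 2) f p1`. (To have one function `D` of `p` for
  `exists_hasDerivAt_eq_slope` use `choose` over `p ∈ (pc, p1)` too, or `deriv f`.)
-/

set_option autoImplicit false
open MeasureTheory Filter Topology
open scoped ENNReal BigOperators

namespace Pool.Agent.PB.M12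

variable {d : ℕ}

theorem deriv_nonneg {f : ℝ → ℝ} (hf : Monotone f) {D x : ℝ} (h : HasDerivAt f D x) : 0 ≤ D := by
  rw [← h.deriv]
  exact hf.deriv_nonneg

theorem thU_cont (U : Set (V d)) (n : ℕ) (y : V d) :
    ContinuousOn (fun q : ℝ => (S3.thU q U n y).toReal) (Set.Icc 0 1) := by
  obtain ⟨F, hF, h⟩ := S3.loc_poly (d := d) (S3.tE (S3.bxF d n))
    (fun e he => (S3.mem_tE.1 he).1) (f := S3.RU U n y) (fun O hO => S3.RU_inter hO)
  exact hF.continuous.continuousOn.congr fun q hq => h q hq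

private theorem ta_nonneg' (x : V d) : 0 ≤ ta x := ENNReal.toReal_nonneg

private theorem hV_nonneg (V' : Finset (V d)) (x : V d) : 0 ≤ hV V' x :=
  Finset.sum_nonneg fun _ _ => ta_nonneg' _

private theorem thU_ne_top (q : ℝ) (U : Set (V d)) (n : ℕ) (y : V d) : S3.thU q U n y ≠ ⊤ :=
  measure_ne_top _ _

theorem diff_ineq (h0 : 0 < pc d)
    (hphi : ∀ S : Finset (V d), (0 : V d) ∈ S → 1 ≤ phi (pc d) S 0)
    {U V' : Finset (V d)} (hV' : V' ⊆ U) (n : ℕ) {p : ℝ} (hp : pc d ≤ p) (hp1 : p < 1) :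
    ∃ D : V d → ℝ, (∀ y, HasDerivAt (fun q : ℝ => (S3.thU q (U : Set (V d)) n y).toReal) (D y) p) ∧
      (V'.card : ℝ) ≤ pc d * ∑ q ∈ bdE U U, hV V' q.1 *
        (p * (1 - p) * D q.2 + (S3.thU p (U : Set (V d)) n q.2).toReal) := by
  have hp0 : 0 < p := h0.trans_le hp
  choose D hD hrho using fun y : V d => S3.russo_ineq (U : Set (V d)) n y hp0 hp1
  refine ⟨D, hD, ?_⟩
  have hmono : ∀ y : V d, Monotone (fun q : ℝ => (S3.thU q (U : Set (V d)) n y).toReal) :=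
    fun y q q' hq => thU_mono_p hq _ n y
  have hD0 : ∀ y, 0 ≤ D y := fun y => deriv_nonneg (hmono y) (hD y)
  have hX0 : ∀ y, 0 ≤ p * (1 - p) * D y + (S3.thU p (U : Set (V d)) n y).toReal := by
    intro y
    have h1 : 0 ≤ p * (1 - p) := mul_nonneg hp0.le (by linarith)
    exact add_nonneg (mul_nonneg h1 (hD0 y)) ENNReal.toReal_nonneg
  have key : ∀ u ∈ V', (1 : ℝ) ≤ ∑ q ∈ bdE U U, pc d * ta (u - q.1) *
      (p * (1 - p) * D q.2 + (S3.thU p (U : Set (V d)) n q.2).toReal) := by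
    intro u hu
    have h1 := avg hp hphi U (hV' hu) n
    have h2 : ∑ q ∈ bdE U U, ENNReal.ofReal (pc d) * tau (pc d) (u - q.1) *
        (rho p (U : Set (V d)) n q.2 + S3.thU p (U : Set (V d)) n q.2) ≤
        ENNReal.ofReal (∑ q ∈ bdE U U, pc d * ta (u - q.1) *
          (p * (1 - p) * D q.2 + (S3.thU p (U : Set (V d)) n q.2).toReal)) := by
      rw [ENNReal.ofReal_sum_of_nonneg]
      · refine Finset.sum_le_sum fun q _ => ?_
        have htau : tau (pc d) (u - q.1) = ENNReal.ofReal (ta (u - q.1)) := by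
          unfold ta
          rw [ENNReal.ofReal_toReal]
          exact measure_ne_top _ _
        have h1p : 0 ≤ p * (1 - p) := mul_nonneg hp0.le (by linarith)
        rw [ENNReal.ofReal_mul (mul_nonneg h0.le (ta_nonneg' _)), ENNReal.ofReal_mul h0.le,
          ← htau, ENNReal.ofReal_add (mul_nonneg h1p (hD0 _)) ENNReal.toReal_nonneg,
          ENNReal.ofReal_toReal (thU_ne_top _ _ _ _)]
        exact mul_le_mul' le_rfl (add_le_add (hrho q.2) le_rfl)
      · intro q _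
        exact mul_nonneg (mul_nonneg h0.le (ta_nonneg' _)) (hX0 _)
    exact ENNReal.one_le_ofReal.1 (h1.trans h2)
  calc (V'.card : ℝ) = ∑ _u ∈ V', (1 : ℝ) := by rw [Finset.sum_const, nsmul_eq_mul, mul_one]
    _ ≤ ∑ u ∈ V', ∑ q ∈ bdE U U, pc d * ta (u - q.1) *
        (p * (1 - p) * D q.2 + (S3.thU p (U : Set (V d)) n q.2).toReal) :=
        Finset.sum_le_sum key
    _ = _ := by
        rw [Finset.sum_comm, Finset.mul_sum]
        refine Finset.sum_congr rfl fun q _ => ?_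
        unfold hV
        rw [Finset.sum_mul, Finset.mul_sum]
        refine Finset.sum_congr rfl fun u _ => ?_
        ring

theorem int_ineq (h0 : 0 < pc d)
    (hphi : ∀ S : Finset (V d), (0 : V d) ∈ S → 1 ≤ phi (pc d) S 0)
    {U V' : Finset (V d)} (hV' : V' ⊆ U) (n : ℕ) {ε₁ : ℝ} (h1 : 0 < ε₁) (h2 : ε₁ ≤ 1 / 4)
    (h3 : pc d + ε₁ ≤ 1) :
    ε₁ * V'.card ≤ (pc d / 2) *
      ∑ q ∈ bdE U U, hV V' q.1 * (S3.thU (pc d + ε₁) (U : Set (V d)) n q.2).toReal := by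
  obtain ⟨f, hf⟩ : ∃ f : ℝ → ℝ, f = fun q => ∑ r ∈ bdE U U, hV V' r.1 *
      (S3.thU q (U : Set (V d)) n r.2).toReal := ⟨_, rfl⟩
  have hfa : ∀ q, f q = ∑ r ∈ bdE U U, hV V' r.1 * (S3.thU q (U : Set (V d)) n r.2).toReal :=
    fun q => by rw [hf]
  have hder : ∀ (D : V d → ℝ) (p : ℝ),
      (∀ y, HasDerivAt (fun q : ℝ => (S3.thU q (U : Set (V d)) n y).toReal) (D y) p) →
      HasDerivAt f (∑ r ∈ bdE U U, hV V' r.1 * D r.2) p := by
    intro D p hD
    rw [hf]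
    exact HasDerivAt.fun_sum fun r _ => (hD r.2).const_mul (hV V' r.1)
  have hlt : pc d < pc d + ε₁ := by linarith
  have hcont : ContinuousOn f (Set.Icc (pc d) (pc d + ε₁)) := by
    rw [hf]
    refine continuousOn_finsetSum _ fun r _ => ?_
    refine continuousOn_const.mul ?_
    refine (thU_cont (U : Set (V d)) n r.2).mono ?_
    intro x hx
    exact ⟨h0.le.trans hx.1, hx.2.trans h3⟩
  have hdiff : DifferentiableOn ℝ f (Set.Ioo (pc d) (pc d + ε₁)) := by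
    intro x hx
    obtain ⟨D, hD, -⟩ := diff_ineq h0 hphi hV' n hx.1.le (lt_of_lt_of_le hx.2 h3)
    exact (hder D x hD).differentiableAt.differentiableWithinAt
  obtain ⟨c, hc, hslope⟩ := exists_deriv_eq_slope f hlt hcont hdiff
  obtain ⟨D, hD, hineq⟩ := diff_ineq h0 hphi hV' n hc.1.le (lt_of_lt_of_le hc.2 h3)
  have hmono : ∀ y : V d, Monotone (fun q : ℝ => (S3.thU q (U : Set (V d)) n y).toReal) :=
    fun y q q' hq => thU_mono_p hq _ n y
  have hD0 : ∀ y, 0 ≤ D y := fun y => deriv_nonneg (hmono y) (hD y)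
  rw [(hder D c hD).deriv] at hslope
  have hc0 : 0 < c := h0.trans hc.1
  have hcc : c * (1 - c) ≤ 1 / 4 := by nlinarith [sq_nonneg (c - 1 / 2)]
  have hle : ∑ q ∈ bdE U U, hV V' q.1 *
      (c * (1 - c) * D q.2 + (S3.thU c (U : Set (V d)) n q.2).toReal) ≤
      (1 / 4) * (∑ r ∈ bdE U U, hV V' r.1 * D r.2) + f (pc d + ε₁) := by
    rw [hfa, Finset.mul_sum, ← Finset.sum_add_distrib]
    refine Finset.sum_le_sum fun q _ => ?_
    have e1 := hV_nonneg V' q.1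
    have e2 : c * (1 - c) * D q.2 ≤ 1 / 4 * D q.2 := mul_le_mul_of_nonneg_right hcc (hD0 _)
    have e3 : (S3.thU c (U : Set (V d)) n q.2).toReal ≤
      (S3.thU (pc d + ε₁) (U : Set (V d)) n q.2).toReal := thU_mono_p hc.2.le _ n q.2
    have e4 := mul_le_mul_of_nonneg_left (add_le_add e2 e3) e1
    calc _ ≤ _ := e4
      _ = _ := by ring
  have hfpc : 0 ≤ f (pc d) := by
    rw [hfa]
    exact Finset.sum_nonneg fun r _ => mul_nonneg (hV_nonneg _ _) ENNReal.toReal_nonneg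
  have hfp1 : 0 ≤ f (pc d + ε₁) := by
    rw [hfa]
    exact Finset.sum_nonneg fun r _ => mul_nonneg (hV_nonneg _ _) ENNReal.toReal_nonneg
  rw [hslope] at hle
  have hd : (pc d + ε₁) - pc d = ε₁ := by ring
  rw [hd] at hle
  have h4 : (V'.card : ℝ) ≤ pc d * ((1 / 4) * ((f (pc d + ε₁) - f (pc d)) / ε₁) +
      f (pc d + ε₁)) := hineq.trans (mul_le_mul_of_nonneg_left hle h0.le)
  rw [← hfa]
  have h5 : ε₁ * (V'.card : ℝ) ≤ ε₁ * (pc d * ((1 / 4) * ((f (pc d + ε₁) - f (pc d)) / ε₁) +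
      f (pc d + ε₁))) := mul_le_mul_of_nonneg_left h4 h1.le
  have h6 : ε₁ * (pc d * ((1 / 4) * ((f (pc d + ε₁) - f (pc d)) / ε₁) +
      f (pc d + ε₁))) = pc d * ((1 / 4) * (f (pc d + ε₁) - f (pc d)) + ε₁ * f (pc d + ε₁)) := by
    field_simp
  rw [h6] at h5
  refine h5.trans ?_
  have h7 : (1 / 4) * (f (pc d + ε₁) - f (pc d)) + ε₁ * f (pc d + ε₁) ≤
      (1 / 2) * f (pc d + ε₁) := by
    have := mul_le_mul_of_nonneg_right h2 hfp1
    linarith
  calc pc d * ((1 / 4) * (f (pc d + ε₁) - f (pc d)) + ε₁ * f (pc d + ε₁))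
      ≤ pc d * ((1 / 2) * f (pc d + ε₁)) := mul_le_mul_of_nonneg_left h7 h0.le
    _ = pc d / 2 * f (pc d + ε₁) := by ring

end Pool.Agent.PB.M12
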