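import Pool.Agent.PB.M12.Int

/-!
# PROJECT PB, Section 12.1: `h12_1` (helper58)
-/

set_option autoImplicit false
open MeasureTheory Filter Topology
open scoped ENNReal BigOperators

namespace Pool.Agent.PB.M12

variable {d : ℕ}

/-- 12.1: field `h1` of `In12` -/
theorem h12_1 (hC : Crit d) : ∀ (U V' : Finset (V d)), V' ⊆ U → ∀ ε₁ : ℝ, 0 < ε₁ → ε₁ ≤ 1 / 4 →
    pc d + ε₁ ≤ 1 → ε₁ * V'.card ≤ (pc d / 2) *
      ∑ q ∈ bdE U U, hV V' q.1 * (thA (pc d + ε₁) (Del.ofSet (U : Set (V d))) q.2).toReal := by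
  intro U V' hV' ε₁ h1 h2 h3
  refine ge_of_tendsto' (f := fun n : ℕ => (pc d / 2) * ∑ q ∈ bdE U U, hV V' q.1 *
    (S3.thU (pc d + ε₁) (U : Set (V d)) n q.2).toReal) (x := atTop) ?_
    (fun n => int_ineq hC.pc_pos hC.phi_ge hV' n h1 h2 h3)
  refine Tendsto.const_mul _ (tendsto_finsetSum _ fun q hq => Tendsto.const_mul _ ?_)
  exact thU_tendsto _ _ (fun h => (mem_bdE.1 hq).2.1 (Finset.mem_coe.1 h))

end Pool.Agent.PB.M12
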