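import Pool.Agent.PB.M12.Defs
import Pool.Agent.PB.P.Act

/-!
# PROJECT PB, module M12-PHIS (Section 12.1): elementary facts on `φ`

PLAN.
* `phi_shift`: `phi p T u = ∑' z, ∑' w, if z ∈ T ∧ w ∉ T then J p (w - z) * Pr {u ↔ z in T}`. Replace
  `z, w` by `z + u, w + u` (`Equiv.tsum_eq (Equiv.addRight u)` twice), `z + u ∈ T ↔ z ∈ T.image (· - u)`,
  and `Pr {Rch (opn p ω ∩ ins T) u (z + u)} = Pr {Rch (opn p ω ∩ ins T') 0 z}` by `Pr_act (trI u)`,
  `mem_opn_act (trI_aut u)`, `Rch_equiv (trI u)` (PB/P/Act.lean; compare `tau_shift` there and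
  `T10.trans_all`, `T10.rad_shift` in PB/T/Main.lean).
* `phi_ge_of_mem`: `0 = u - u ∈ T.image (· - u)`.
* `phU_mono`: `J p x ≤ J q x` and `opn_mono`, `Rch.mono`; termwise.
-/

set_option autoImplicit false
open MeasureTheory Filter Topology
open scoped ENNReal BigOperators

namespace Pool.Agent.PB.M12

variable {d : ℕ}

private theorem mem_im (T : Finset (V d)) (u z : V d) :
    z ∈ T.image (fun x => x - u) ↔ z + u ∈ T := by
  rw [Finset.mem_image]
  constructor
  · rintro ⟨x, hx, rfl⟩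
    rwa [sub_add_cancel]
  · intro h
    exact ⟨z + u, h, add_sub_cancel_right z u⟩

private theorem pr_shift (p : ℝ) (T : Finset (V d)) (u z : V d) :
    Pr d {ω | Rch (opn p ω ∩ ins (T : Set (V d))) u (z + u)} =
      Pr d {ω | Rch (opn p ω ∩ ins ((T.image (fun x => x - u) : Finset (V d)) : Set (V d))) 0 z} := by
  rw [← Pr_act (trI u) {ω | Rch (opn p ω ∩
    ins ((T.image (fun x => x - u) : Finset (V d)) : Set (V d))) 0 z}]
  congr 1
  ext ω
  simp only [Set.mem_ofPred_eq]
  have hE : ∀ a b, s(a, b) ∈ opn p (act (trI u) ω) ∩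
        ins ((T.image (fun x => x - u) : Finset (V d)) : Set (V d)) ↔
      s(trI u a, trI u b) ∈ opn p ω ∩ ins (T : Set (V d)) := by
    intro a b
    have ha := mem_im T u a
    have hb := mem_im T u b
    simp only [Set.mem_inter_iff, mem_opn_act (trI_aut u), ins, Set.mem_ofPred_eq, Sym2.mem_iff,
      forall_eq_or_imp, forall_eq, Finset.mem_coe, trI_apply]
    rw [ha, hb]
  rw [Rch_equiv (trI u) hE, trI_apply, trI_apply, zero_add]

theorem phi_shift (p : ℝ) (T : Finset (V d)) (u : V d) :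
    phi p T u = phi p (T.image (fun x => x - u)) 0 := by
  classical
  unfold phi
  rw [← (Equiv.addRight u).tsum_eq]
  refine tsum_congr fun z => ?_
  rw [← (Equiv.addRight u).tsum_eq]
  refine tsum_congr fun w => ?_
  simp only [Equiv.coe_addRight]
  rw [add_sub_add_right_eq_sub, pr_shift p T u z]
  by_cases hz : z + u ∈ T ∧ w + u ∉ T
  · rw [if_pos hz, if_pos ⟨(mem_im T u z).2 hz.1, fun h => hz.2 ((mem_im T u w).1 h)⟩]
  · rw [if_neg hz, if_neg (fun h => hz ⟨(mem_im T u z).1 h.1, fun h' => h.2 ((mem_im T u w).2 h')⟩)]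

theorem phi_ge_of_mem {p : ℝ} (h : ∀ S : Finset (V d), (0 : V d) ∈ S → 1 ≤ phi p S 0)
    {T : Finset (V d)} {u : V d} (hu : u ∈ T) : 1 ≤ phi p T u := by
  rw [phi_shift]
  exact h _ (Finset.mem_image.2 ⟨u, hu, sub_self u⟩)

theorem phU_mono {p q : ℝ} (h : p ≤ q) (U : Set (V d)) (S : Finset (V d)) (y : V d) :
    S3.phU p U S y ≤ S3.phU q U S y := by
  classical
  unfold S3.phU
  refine ENNReal.tsum_le_tsum fun z => ENNReal.tsum_le_tsum fun w => ?_
  split_ifs
  · refine mul_le_mul' ?_ (measure_mono fun ω hω => ?_)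
    · unfold J
      split_ifs
      · exact ENNReal.ofReal_le_ofReal h
      · exact le_rfl
    · exact Rch.mono (Set.inter_subset_inter_left _ (opn_mono h ω)) hω
  · exact le_rfl

end Pool.Agent.PB.M12
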