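import Pool.Agent.PB.M12.DetA
import Pool.Agent.PB.T.KN

/-!
# PROJECT PB, module M12-PROBA (Section 12.2): `P(CaseA) ≤ Γ_p(r)²`

`F : Set (Sym2 (V d))` arbitrary, `E ω = opn p ω ∩ F`, `1 ≤ r`. Model: `T10.KN_step` in
PB/T/KN.lean (same exploration argument, but here the explored ball is `K = Bl (E ω) (r-1) y`).

PLAN. For `K : Finset (V d)` let
 `A K = {ω | Bl (E ω) (r-1) y = K ∧ (Sph (E ω) r y).Nonempty}`,
 `D K = {ω | radGe (opn p ω ∩ (F \ touch K)) r y'}`.
(1) `{ω | CaseA (E ω) r y y'} ⊆ ⋃ K, (A K ∩ D K)`: the ball is finite (`bl_finite`, `lat_locFin`,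
  `LocFin.mono`), `E ω \ touch K = opn p ω ∩ (F \ touch K)` (`Set.inter_sdiff_assoc`).
(2) `A K` measurable (`MES.bl`, `MVS.eq_set`, `MES.sph`), pairwise disjoint, contained in
  `{ω | radGe (E ω) r y}`; `A K` depends only on the labels of the edges in `touch K`
  (`T10.Bl_congr`, `T10.Sph_congr` of PB/T/Det.lean with `n = r - 1`), `D K` only on those of
  `F \ touch K` (`T10.dep_opn`). `Pr_inter_indep` / `T10.Pr_indep`.
(3) `T10.expl_bound` with `c = Gam d p r`; `Pr {radGe (opn p ω ∩ F) r y} ≤ Gam d p r` by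
  definition of `PB.Gam` (`le_iSup`).
* `caseA_le`: `(Del.ofSet U).rem (opn p ω) = opn p ω ∩ {e | ∀ x ∈ e, x ∉ U}` (`Del.ofSet_rem`).
-/

set_option autoImplicit false
open MeasureTheory Filter Topology
open scoped ENNReal BigOperators

namespace Pool.Agent.PB.M12

variable {d : ℕ}

theorem Pr_radGe_le (p : ℝ) (F : Set (Sym2 (V d))) (r : ℕ) (y : V d) :
    Pr d {ω : Om d | radGe (opn p ω ∩ F) r y} ≤ PB.Gam d p r :=
  le_iSup_of_le F (le_iSup (fun y : V d => Pr d {ω : Om d | radGe (opn p ω ∩ F) r y}) y)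

/-- the exploration event: the ball `K`, and the sphere of radius `r` is not empty -/
private def Aev (p : ℝ) (F : Set (Sym2 (V d))) (r : ℕ) (y : V d) (K : Finset (V d)) :
    Set (Om d) :=
  {ω | Bl (opn p ω ∩ F) (r - 1) y = (K : Set (V d))} ∩ T10.RadEv p F r y

private theorem Aev_meas (p : ℝ) (F : Set (Sym2 (V d))) (r : ℕ) (y : V d) (K : Finset (V d)) :
    MeasurableSet (Aev p F r y K) :=
  ((((opn_MES (d := d) p).inter (MES.const F)).bl (r - 1) y).eq_set _).inter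
    (T10.measurableSet_RadEv p F r y)

private theorem Aev_disj (p : ℝ) (F : Set (Sym2 (V d))) (r : ℕ) (y : V d) :
    Pairwise (Function.onFun Disjoint (Aev p F r y)) := by
  intro K K' hne
  simp only [Function.onFun]
  rw [Set.disjoint_left]
  rintro ω ⟨h1, -⟩ ⟨h2, -⟩
  exact hne (Finset.coe_injective (h1.symm.trans h2))

private theorem Aev_dep_aux (p : ℝ) (F : Set (Sym2 (V d))) {r : ℕ} (hr : 1 ≤ r) (y : V d)
    (K : Finset (V d)) {ω ω' : Om d}
    (h : ∀ e ∈ touch (K : Set (V d)), e ∈ opn p ω ∩ F ↔ e ∈ opn p ω' ∩ F)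
    (hω : ω ∈ Aev p F r y K) : ω' ∈ Aev p F r y K := by
  obtain ⟨h1, h2⟩ := hω
  have hi : r - 1 + 1 = r := Nat.sub_add_cancel hr
  have h1' : Bl (opn p ω ∩ F) (r - 1) y = (K : Set (V d)) := h1
  have hB := T10.Bl_congr (n := r - 1) (x := y) h h1'.subset
  have hS := T10.Sph_congr (n := r - 1) (x := y) h h1'.subset
  rw [hi] at hB hS
  constructor
  · show Bl (opn p ω' ∩ F) (r - 1) y = (K : Set (V d))
    rw [← hB (r - 1) (Nat.sub_le _ _)]
    exact h1'
  · show (Sph (opn p ω' ∩ F) r y).Nonempty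
    rw [← hS r le_rfl]
    exact h2

private theorem Aev_dep (p : ℝ) (F : Set (Sym2 (V d))) {r : ℕ} (hr : 1 ≤ r) (y : V d)
    (K : Finset (V d)) :
    DependsOn (fun ω => ω ∈ Aev p F r y K) (Sum.inl '' (touch (K : Set (V d))) : Set (Ix d)) := by
  intro ω ω' h
  have h1 : ∀ e ∈ touch (K : Set (V d)), e ∈ opn p ω ∩ F ↔ e ∈ opn p ω' ∩ F := by
    intro e he
    have h2 : ω (Sum.inl e) = ω' (Sum.inl e) := h _ ⟨e, he, rfl⟩
    simp only [opn, Set.mem_inter_iff, Set.mem_ofPred_eq, h2]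
  exact propext ⟨Aev_dep_aux p F hr y K h1, Aev_dep_aux p F hr y K fun e he => (h1 e he).symm⟩

theorem caseA_le' (p : ℝ) (F : Set (Sym2 (V d))) {r : ℕ} (hr : 1 ≤ r) (y y' : V d) :
    Pr d {ω : Om d | CaseA (opn p ω ∩ F) r y y'} ≤ PB.Gam d p r ^ 2 := by
  have hcov : {ω : Om d | CaseA (opn p ω ∩ F) r y y'} ⊆
      ⋃ K : Finset (V d), (Aev p F r y K ∩ T10.RadEv p (F \ touch (K : Set (V d))) r y') := by
    rintro ω ⟨h1, h2⟩
    have hfin : (Bl (opn p ω ∩ F) (r - 1) y).Finite :=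
      bl_finite ((lat_locFin d).mono (Set.inter_subset_left.trans (opn_subset p ω))) _ _
    refine Set.mem_iUnion.2 ⟨hfin.toFinset, ⟨?_, h1⟩, ?_⟩
    · exact hfin.coe_toFinset.symm
    · show (Sph (opn p ω ∩ (F \ touch (hfin.toFinset : Set (V d)))) r y').Nonempty
      rw [hfin.coe_toFinset, ← Set.inter_sdiff_assoc]
      exact h2
  have hbd : ∀ K : Finset (V d),
      Pr d (Aev p F r y K ∩ T10.RadEv p (F \ touch (K : Set (V d))) r y') ≤
        Pr d (Aev p F r y K) * PB.Gam d p r := by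
    intro K
    have hdis : Disjoint (Sum.inl '' (touch (K : Set (V d))) : Set (Ix d))
        (Sum.inl '' (F \ touch (K : Set (V d))) : Set (Ix d)) := by
      rw [Set.disjoint_left]
      rintro _ ⟨e, he, rfl⟩ ⟨e', he', h⟩
      have h1 : e' = e := Sum.inl_injective h
      subst h1
      exact he'.2 he
    have hdep : DependsOn (fun ω => ω ∈ T10.RadEv p (F \ touch (K : Set (V d))) r y')
        (Sum.inl '' (F \ touch (K : Set (V d))) : Set (Ix d)) :=
      T10.dep_opn p (F \ touch (K : Set (V d))) fun O => (Sph O r y').Nonempty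
    rw [T10.Pr_indep hdis (Aev_meas p F r y K) (T10.measurableSet_RadEv p _ r y')
      (Aev_dep p F hr y K) hdep]
    exact mul_le_mul' le_rfl (Pr_radGe_le p _ r y')
  refine (measure_mono hcov).trans ((T10.expl_bound (Pr d) (Aev_meas p F r y) (Aev_disj p F r y)
    (X := T10.RadEv p F r y) (fun K => Set.inter_subset_right) hbd).trans ?_)
  rw [sq]
  exact mul_le_mul' (Pr_radGe_le p F r y) le_rfl

theorem caseA_le (p : ℝ) (U : Set (V d)) {r : ℕ} (hr : 1 ≤ r) (y y' : V d) :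
    Pr d {ω : Om d | CaseA ((Del.ofSet U).rem (opn p ω)) r y y'} ≤ PB.Gam d p r ^ 2 := by
  refine le_trans (le_of_eq ?_) (caseA_le' p {e | ∀ x ∈ e, x ∉ U} hr y y')
  congr 1
  ext ω
  show CaseA ((Del.ofSet U).rem (opn p ω)) r y y' ↔
    CaseA (opn p ω ∩ {e | ∀ x ∈ e, x ∉ U}) r y y'
  rw [Del.ofSet_rem]
  exact Iff.rfl

end Pool.Agent.PB.M12
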